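import Pool.Agent.H95.Fat.Key

set_option autoImplicit false
set_option linter.unusedVariables false

namespace Pool.Agent.H95.Fat

theorem sg13_bound (p1 p2 p3 q1 q2 q3 : ℝ) (hp1 : |p1| ≤ 2/10^10) (hp2 : |p2| ≤ 2/10^10) (hp3 : |p3| ≤ 2/10^10) (hq1 : |q1| ≤ 2/10^10) (hq2 : |q2| ≤ 2/10^10) (hq3 : |q3| ≤ 2/10^10) : |sg13 p1 p2 p3 q1 q2 q3| ≤ 12/10^10 := by
  simp only [sg13]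
  rw [abs_le] at *
  constructor <;> norm_num at * <;> linarith [hp1.1, hp1.2, hp2.1, hp2.2, hp3.1, hp3.2, hq1.1, hq1.2, hq2.1, hq2.2, hq3.1, hq3.2]

theorem ta13_bound (p1 p2 p3 q1 q2 q3 : ℝ) (hp1 : |p1| ≤ 2/10^10) (hp2 : |p2| ≤ 2/10^10) (hp3 : |p3| ≤ 2/10^10) (hq1 : |q1| ≤ 2/10^10) (hq2 : |q2| ≤ 2/10^10) (hq3 : |q3| ≤ 2/10^10) : |ta13 p1 p2 p3 q1 q2 q3| ≤ 12/10^10 := by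
  simp only [ta13]
  rw [abs_le] at *
  constructor <;> norm_num at * <;> linarith [hp1.1, hp1.2, hp2.1, hp2.2, hp3.1, hp3.2, hq1.1, hq1.2, hq2.1, hq2.2, hq3.1, hq3.2]

theorem g13_bound (p1 p2 p3 q1 q2 q3 : ℝ) (hp1 : |p1| ≤ 2/10^10) (hp2 : |p2| ≤ 2/10^10) (hp3 : |p3| ≤ 2/10^10) (hq1 : |q1| ≤ 2/10^10) (hq2 : |q2| ≤ 2/10^10) (hq3 : |q3| ≤ 2/10^10) : |g13 p1 p2 p3 q1 q2 q3| ≤ 2/10^9 := by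
  simp only [g13]
  rw [abs_le] at *
  constructor <;> norm_num at * <;> linarith [hp1.1, hp1.2, hp2.1, hp2.2, hp3.1, hp3.2, hq1.1, hq1.2, hq2.1, hq2.2, hq3.1, hq3.2]

theorem A13x_bound (p1 p2 p3 q1 q2 q3 : ℝ) (hp1 : |p1| ≤ 2/10^10) (hp2 : |p2| ≤ 2/10^10) (hp3 : |p3| ≤ 2/10^10) (hq1 : |q1| ≤ 2/10^10) (hq2 : |q2| ≤ 2/10^10) (hq3 : |q3| ≤ 2/10^10) : |A13x p1 p2 p3 q1 q2 q3| ≤ 3/10^9 := by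
  simp only [A13x, sg13, ta13, X1, Y1, Z1, X2, Y2, Z2, s13, t13, s14, t14, s15]
  rw [abs_le] at *
  constructor <;> norm_num at * <;> linarith [hp1.1, hp1.2, hp2.1, hp2.2, hp3.1, hp3.2, hq1.1, hq1.2, hq2.1, hq2.2, hq3.1, hq3.2]

theorem A13y_bound (p1 p2 p3 q1 q2 q3 : ℝ) (hp1 : |p1| ≤ 2/10^10) (hp2 : |p2| ≤ 2/10^10) (hp3 : |p3| ≤ 2/10^10) (hq1 : |q1| ≤ 2/10^10) (hq2 : |q2| ≤ 2/10^10) (hq3 : |q3| ≤ 2/10^10) : |A13y p1 p2 p3 q1 q2 q3| ≤ 3/10^9 := by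
  simp only [A13y, sg13, ta13, X1, Y1, Z1, X2, Y2, Z2, s13, t13, s14, t14, s15]
  rw [abs_le] at *
  constructor <;> norm_num at * <;> linarith [hp1.1, hp1.2, hp2.1, hp2.2, hp3.1, hp3.2, hq1.1, hq1.2, hq2.1, hq2.2, hq3.1, hq3.2]

theorem A13z_bound (p1 p2 p3 q1 q2 q3 : ℝ) (hp1 : |p1| ≤ 2/10^10) (hp2 : |p2| ≤ 2/10^10) (hp3 : |p3| ≤ 2/10^10) (hq1 : |q1| ≤ 2/10^10) (hq2 : |q2| ≤ 2/10^10) (hq3 : |q3| ≤ 2/10^10) : |A13z p1 p2 p3 q1 q2 q3| ≤ 3/10^9 := by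
  simp only [A13z, sg13, ta13, X1, Y1, Z1, X2, Y2, Z2, s13, t13, s14, t14, s15]
  rw [abs_le] at *
  constructor <;> norm_num at * <;> linarith [hp1.1, hp1.2, hp2.1, hp2.2, hp3.1, hp3.2, hq1.1, hq1.2, hq2.1, hq2.2, hq3.1, hq3.2]

theorem sg14_bound (p1 p2 p3 q1 q2 q3 r1 r2 r3 : ℝ) (hp1 : |p1| ≤ 2/10^10) (hp2 : |p2| ≤ 2/10^10) (hp3 : |p3| ≤ 2/10^10) (hq1 : |q1| ≤ 2/10^10) (hq2 : |q2| ≤ 2/10^10) (hq3 : |q3| ≤ 2/10^10) (hr1 : |r1| ≤ 2/10^10) (hr2 : |r2| ≤ 2/10^10) (hr3 : |r3| ≤ 2/10^10) : |sg14 p1 p2 p3 q1 q2 q3 r1 r2 r3| ≤ 12/10^10 := by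
  simp only [sg14]
  rw [abs_le] at *
  constructor <;> norm_num at * <;> linarith [hp1.1, hp1.2, hp2.1, hp2.2, hp3.1, hp3.2, hq1.1, hq1.2, hq2.1, hq2.2, hq3.1, hq3.2, hr1.1, hr1.2, hr2.1, hr2.2, hr3.1, hr3.2]

theorem ta14_bound (p1 p2 p3 q1 q2 q3 r1 r2 r3 : ℝ) (hp1 : |p1| ≤ 2/10^10) (hp2 : |p2| ≤ 2/10^10) (hp3 : |p3| ≤ 2/10^10) (hq1 : |q1| ≤ 2/10^10) (hq2 : |q2| ≤ 2/10^10) (hq3 : |q3| ≤ 2/10^10) (hr1 : |r1| ≤ 2/10^10) (hr2 : |r2| ≤ 2/10^10) (hr3 : |r3| ≤ 2/10^10) : |ta14 p1 p2 p3 q1 q2 q3 r1 r2 r3| ≤ 12/10^10 := by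
  simp only [ta14]
  rw [abs_le] at *
  constructor <;> norm_num at * <;> linarith [hp1.1, hp1.2, hp2.1, hp2.2, hp3.1, hp3.2, hq1.1, hq1.2, hq2.1, hq2.2, hq3.1, hq3.2, hr1.1, hr1.2, hr2.1, hr2.2, hr3.1, hr3.2]

theorem g14_bound (p1 p2 p3 q1 q2 q3 r1 r2 r3 : ℝ) (hp1 : |p1| ≤ 2/10^10) (hp2 : |p2| ≤ 2/10^10) (hp3 : |p3| ≤ 2/10^10) (hq1 : |q1| ≤ 2/10^10) (hq2 : |q2| ≤ 2/10^10) (hq3 : |q3| ≤ 2/10^10) (hr1 : |r1| ≤ 2/10^10) (hr2 : |r2| ≤ 2/10^10) (hr3 : |r3| ≤ 2/10^10) : |g14 p1 p2 p3 q1 q2 q3 r1 r2 r3| ≤ 2/10^9 := by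
  simp only [g14]
  rw [abs_le] at *
  constructor <;> norm_num at * <;> linarith [hp1.1, hp1.2, hp2.1, hp2.2, hp3.1, hp3.2, hq1.1, hq1.2, hq2.1, hq2.2, hq3.1, hq3.2, hr1.1, hr1.2, hr2.1, hr2.2, hr3.1, hr3.2]

theorem A14x_bound (p1 p2 p3 q1 q2 q3 r1 r2 r3 : ℝ) (hp1 : |p1| ≤ 2/10^10) (hp2 : |p2| ≤ 2/10^10) (hp3 : |p3| ≤ 2/10^10) (hq1 : |q1| ≤ 2/10^10) (hq2 : |q2| ≤ 2/10^10) (hq3 : |q3| ≤ 2/10^10) (hr1 : |r1| ≤ 2/10^10) (hr2 : |r2| ≤ 2/10^10) (hr3 : |r3| ≤ 2/10^10) : |A14x p1 p2 p3 q1 q2 q3 r1 r2 r3| ≤ 3/10^9 := by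
  simp only [A14x, sg14, ta14, X1, Y1, Z1, X2, Y2, Z2, s13, t13, s14, t14, s15]
  rw [abs_le] at *
  constructor <;> norm_num at * <;> linarith [hp1.1, hp1.2, hp2.1, hp2.2, hp3.1, hp3.2, hq1.1, hq1.2, hq2.1, hq2.2, hq3.1, hq3.2, hr1.1, hr1.2, hr2.1, hr2.2, hr3.1, hr3.2]

theorem A14y_bound (p1 p2 p3 q1 q2 q3 r1 r2 r3 : ℝ) (hp1 : |p1| ≤ 2/10^10) (hp2 : |p2| ≤ 2/10^10) (hp3 : |p3| ≤ 2/10^10) (hq1 : |q1| ≤ 2/10^10) (hq2 : |q2| ≤ 2/10^10) (hq3 : |q3| ≤ 2/10^10) (hr1 : |r1| ≤ 2/10^10) (hr2 : |r2| ≤ 2/10^10) (hr3 : |r3| ≤ 2/10^10) : |A14y p1 p2 p3 q1 q2 q3 r1 r2 r3| ≤ 3/10^9 := by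
  simp only [A14y, sg14, ta14, X1, Y1, Z1, X2, Y2, Z2, s13, t13, s14, t14, s15]
  rw [abs_le] at *
  constructor <;> norm_num at * <;> linarith [hp1.1, hp1.2, hp2.1, hp2.2, hp3.1, hp3.2, hq1.1, hq1.2, hq2.1, hq2.2, hq3.1, hq3.2, hr1.1, hr1.2, hr2.1, hr2.2, hr3.1, hr3.2]

theorem A14z_bound (p1 p2 p3 q1 q2 q3 r1 r2 r3 : ℝ) (hp1 : |p1| ≤ 2/10^10) (hp2 : |p2| ≤ 2/10^10) (hp3 : |p3| ≤ 2/10^10) (hq1 : |q1| ≤ 2/10^10) (hq2 : |q2| ≤ 2/10^10) (hq3 : |q3| ≤ 2/10^10) (hr1 : |r1| ≤ 2/10^10) (hr2 : |r2| ≤ 2/10^10) (hr3 : |r3| ≤ 2/10^10) : |A14z p1 p2 p3 q1 q2 q3 r1 r2 r3| ≤ 3/10^9 := by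
  simp only [A14z, sg14, ta14, X1, Y1, Z1, X2, Y2, Z2, s13, t13, s14, t14, s15]
  rw [abs_le] at *
  constructor <;> norm_num at * <;> linarith [hp1.1, hp1.2, hp2.1, hp2.2, hp3.1, hp3.2, hq1.1, hq1.2, hq2.1, hq2.2, hq3.1, hq3.2, hr1.1, hr1.2, hr2.1, hr2.2, hr3.1, hr3.2]

theorem sg15_bound (p1 p2 p3 q1 q2 q3 r1 r2 r3 z1 z2 z3 : ℝ) (hp1 : |p1| ≤ 2/10^10) (hp2 : |p2| ≤ 2/10^10) (hp3 : |p3| ≤ 2/10^10) (hq1 : |q1| ≤ 2/10^10) (hq2 : |q2| ≤ 2/10^10) (hq3 : |q3| ≤ 2/10^10) (hr1 : |r1| ≤ 2/10^10) (hr2 : |r2| ≤ 2/10^10) (hr3 : |r3| ≤ 2/10^10) (hz1 : |z1| ≤ 2/10^10) (hz2 : |z2| ≤ 2/10^10) (hz3 : |z3| ≤ 2/10^10) : |sg15 p1 p2 p3 q1 q2 q3 r1 r2 r3 z1 z2 z3| ≤ 12/10^10 := by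
  simp only [sg15]
  rw [abs_le] at *
  constructor <;> norm_num at * <;> linarith [hp1.1, hp1.2, hp2.1, hp2.2, hp3.1, hp3.2, hq1.1, hq1.2, hq2.1, hq2.2, hq3.1, hq3.2, hr1.1, hr1.2, hr2.1, hr2.2, hr3.1, hr3.2, hz1.1, hz1.2, hz2.1, hz2.2, hz3.1, hz3.2]

theorem ta15_bound (p1 p2 p3 q1 q2 q3 r1 r2 r3 z1 z2 z3 : ℝ) (hp1 : |p1| ≤ 2/10^10) (hp2 : |p2| ≤ 2/10^10) (hp3 : |p3| ≤ 2/10^10) (hq1 : |q1| ≤ 2/10^10) (hq2 : |q2| ≤ 2/10^10) (hq3 : |q3| ≤ 2/10^10) (hr1 : |r1| ≤ 2/10^10) (hr2 : |r2| ≤ 2/10^10) (hr3 : |r3| ≤ 2/10^10) (hz1 : |z1| ≤ 2/10^10) (hz2 : |z2| ≤ 2/10^10) (hz3 : |z3| ≤ 2/10^10) : |ta15 p1 p2 p3 q1 q2 q3 r1 r2 r3 z1 z2 z3| ≤ 12/10^10 := by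
  simp only [ta15]
  rw [abs_le] at *
  constructor <;> norm_num at * <;> linarith [hp1.1, hp1.2, hp2.1, hp2.2, hp3.1, hp3.2, hq1.1, hq1.2, hq2.1, hq2.2, hq3.1, hq3.2, hr1.1, hr1.2, hr2.1, hr2.2, hr3.1, hr3.2, hz1.1, hz1.2, hz2.1, hz2.2, hz3.1, hz3.2]

theorem g15_bound (p1 p2 p3 q1 q2 q3 r1 r2 r3 z1 z2 z3 : ℝ) (hp1 : |p1| ≤ 2/10^10) (hp2 : |p2| ≤ 2/10^10) (hp3 : |p3| ≤ 2/10^10) (hq1 : |q1| ≤ 2/10^10) (hq2 : |q2| ≤ 2/10^10) (hq3 : |q3| ≤ 2/10^10) (hr1 : |r1| ≤ 2/10^10) (hr2 : |r2| ≤ 2/10^10) (hr3 : |r3| ≤ 2/10^10) (hz1 : |z1| ≤ 2/10^10) (hz2 : |z2| ≤ 2/10^10) (hz3 : |z3| ≤ 2/10^10) : |g15 p1 p2 p3 q1 q2 q3 r1 r2 r3 z1 z2 z3| ≤ 2/10^9 := by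
  simp only [g15]
  rw [abs_le] at *
  constructor <;> norm_num at * <;> linarith [hp1.1, hp1.2, hp2.1, hp2.2, hp3.1, hp3.2, hq1.1, hq1.2, hq2.1, hq2.2, hq3.1, hq3.2, hr1.1, hr1.2, hr2.1, hr2.2, hr3.1, hr3.2, hz1.1, hz1.2, hz2.1, hz2.2, hz3.1, hz3.2]

theorem A15x_bound (p1 p2 p3 q1 q2 q3 r1 r2 r3 z1 z2 z3 : ℝ) (hp1 : |p1| ≤ 2/10^10) (hp2 : |p2| ≤ 2/10^10) (hp3 : |p3| ≤ 2/10^10) (hq1 : |q1| ≤ 2/10^10) (hq2 : |q2| ≤ 2/10^10) (hq3 : |q3| ≤ 2/10^10) (hr1 : |r1| ≤ 2/10^10) (hr2 : |r2| ≤ 2/10^10) (hr3 : |r3| ≤ 2/10^10) (hz1 : |z1| ≤ 2/10^10) (hz2 : |z2| ≤ 2/10^10) (hz3 : |z3| ≤ 2/10^10) : |A15x p1 p2 p3 q1 q2 q3 r1 r2 r3 z1 z2 z3| ≤ 3/10^9 := by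
  simp only [A15x, sg15, ta15, X1, Y1, Z1, X2, Y2, Z2, s13, t13, s14, t14, s15]
  rw [abs_le] at *
  constructor <;> norm_num at * <;> linarith [hp1.1, hp1.2, hp2.1, hp2.2, hp3.1, hp3.2, hq1.1, hq1.2, hq2.1, hq2.2, hq3.1, hq3.2, hr1.1, hr1.2, hr2.1, hr2.2, hr3.1, hr3.2, hz1.1, hz1.2, hz2.1, hz2.2, hz3.1, hz3.2]

theorem A15y_bound (p1 p2 p3 q1 q2 q3 r1 r2 r3 z1 z2 z3 : ℝ) (hp1 : |p1| ≤ 2/10^10) (hp2 : |p2| ≤ 2/10^10) (hp3 : |p3| ≤ 2/10^10) (hq1 : |q1| ≤ 2/10^10) (hq2 : |q2| ≤ 2/10^10) (hq3 : |q3| ≤ 2/10^10) (hr1 : |r1| ≤ 2/10^10) (hr2 : |r2| ≤ 2/10^10) (hr3 : |r3| ≤ 2/10^10) (hz1 : |z1| ≤ 2/10^10) (hz2 : |z2| ≤ 2/10^10) (hz3 : |z3| ≤ 2/10^10) : |A15y p1 p2 p3 q1 q2 q3 r1 r2 r3 z1 z2 z3| ≤ 3/10^9 := by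
  simp only [A15y, sg15, ta15, X1, Y1, Z1, X2, Y2, Z2, s13, t13, s14, t14, s15]
  rw [abs_le] at *
  constructor <;> norm_num at * <;> linarith [hp1.1, hp1.2, hp2.1, hp2.2, hp3.1, hp3.2, hq1.1, hq1.2, hq2.1, hq2.2, hq3.1, hq3.2, hr1.1, hr1.2, hr2.1, hr2.2, hr3.1, hr3.2, hz1.1, hz1.2, hz2.1, hz2.2, hz3.1, hz3.2]

theorem A15z_bound (p1 p2 p3 q1 q2 q3 r1 r2 r3 z1 z2 z3 : ℝ) (hp1 : |p1| ≤ 2/10^10) (hp2 : |p2| ≤ 2/10^10) (hp3 : |p3| ≤ 2/10^10) (hq1 : |q1| ≤ 2/10^10) (hq2 : |q2| ≤ 2/10^10) (hq3 : |q3| ≤ 2/10^10) (hr1 : |r1| ≤ 2/10^10) (hr2 : |r2| ≤ 2/10^10) (hr3 : |r3| ≤ 2/10^10) (hz1 : |z1| ≤ 2/10^10) (hz2 : |z2| ≤ 2/10^10) (hz3 : |z3| ≤ 2/10^10) : |A15z p1 p2 p3 q1 q2 q3 r1 r2 r3 z1 z2 z3| ≤ 3/10^9 := by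
  simp only [A15z, sg15, ta15, X1, Y1, Z1, X2, Y2, Z2, s13, t13, s14, t14, s15]
  rw [abs_le] at *
  constructor <;> norm_num at * <;> linarith [hp1.1, hp1.2, hp2.1, hp2.2, hp3.1, hp3.2, hq1.1, hq1.2, hq2.1, hq2.2, hq3.1, hq3.2, hr1.1, hr1.2, hr2.1, hr2.2, hr3.1, hr3.2, hz1.1, hz1.2, hz2.1, hz2.2, hz3.1, hz3.2]

end Pool.Agent.H95.Fat
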