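import Mathlib

/-! Chains of five fat links: configurations, simple configurations, straightened configurations and
locked configurations. -/

set_option autoImplicit false

namespace Pool.Agent.H95.Fat

open Set

/-- `v` is a configuration of the open five-link chain with link lengths `ℓ`. -/
def IsConf (ℓ : Fin 5 → ℝ) (v : Fin 6 → EuclideanSpace ℝ (Fin 3)) : Prop :=
  ∀ i : Fin 5, dist (v i.castSucc) (v i.succ) = ℓ i

/-- The configuration is simple: the fat links (radius one) of two non-adjacent links are disjoint,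
that is, the two segments are at distance more than two. -/
def IsSimple (v : Fin 6 → EuclideanSpace ℝ (Fin 3)) : Prop :=
  ∀ i j : Fin 5, i.val + 2 ≤ j.val →
    ∀ p ∈ segment ℝ (v i.castSucc) (v i.succ),
    ∀ q ∈ segment ℝ (v j.castSucc) (v j.succ), 2 < dist p q

/-- `w` is a straightened configuration: the vertices lie in order on a line. -/
def IsStraight (ℓ : Fin 5 → ℝ) (w : Fin 6 → EuclideanSpace ℝ (Fin 3)) : Prop :=
  ∃ a u : EuclideanSpace ℝ (Fin 3), ‖u‖ = 1 ∧
    ∀ k : Fin 6, w k = a + (∑ i : Fin 5 with i.val < k.val, ℓ i) • u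

/-- `v` is a locked simple configuration of the fat chain with link lengths `ℓ`: no motion through
simple configurations carries it to a straightened configuration. -/
def IsLocked (ℓ : Fin 5 → ℝ) (v : Fin 6 → EuclideanSpace ℝ (Fin 3)) : Prop :=
  IsConf ℓ v ∧ IsSimple v ∧
    ¬ ∃ γ : ℝ → Fin 6 → EuclideanSpace ℝ (Fin 3), Continuous γ ∧ γ 0 = v ∧
      (∀ t ∈ Icc (0 : ℝ) 1, IsConf ℓ (γ t) ∧ IsSimple (γ t)) ∧ IsStraight ℓ (γ 1)

end Pool.Agent.H95.Fat
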