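import Pool.Agent.H95.Fat.Init
import Pool.Agent.H95.Fat.Defs

/-! Chains of five fat links, and a locked one with link length ratio `1.00079434`. -/

set_option autoImplicit false
set_option linter.unusedVariables false
set_option linter.unusedSimpArgs false

namespace Pool.Agent.H95.Fat

open Set Filter Topology

noncomputable section

/-- link lengths -/
def len (a b : ℝ) : Fin 5 → ℝ := ![a, LL, LL, LL, b]

/-- initial vertices -/
def V0 (a b : ℝ) : Fin 6 → EuclideanSpace ℝ (Fin 3) :=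
  ![-(a • U0 0), 0, LL • U0 1, LL • (U0 1 + U0 2), LL • (U0 1 + U0 2 + U0 3),
    LL • (U0 1 + U0 2 + U0 3) + b • U0 4]

theorem LL_pos : (0:ℝ) < LL := by norm_num [LL]

theorem LL_gt : (2:ℝ) < LL := by norm_num [LL]

theorem len_pos {a b : ℝ} (ha : 0 < a) (hb : 0 < b) (i : Fin 5) : 0 < len a b i := by
  have := LL_pos
  fin_cases i <;> simp [len] <;> assumption

theorem V0_diff (a b : ℝ) (i : Fin 5) :
    V0 a b i.succ - V0 a b i.castSucc = len a b i • U0 i := by
  fin_cases i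
  · show (0:EuclideanSpace ℝ (Fin 3)) - -(a • U0 0) = a • U0 0
    module
  · show LL • U0 1 - (0:EuclideanSpace ℝ (Fin 3)) = LL • U0 1
    module
  · show LL • (U0 1 + U0 2) - LL • U0 1 = LL • U0 2
    module
  · show LL • (U0 1 + U0 2 + U0 3) - LL • (U0 1 + U0 2) = LL • U0 3
    module
  · show LL • (U0 1 + U0 2 + U0 3) + b • U0 4 - LL • (U0 1 + U0 2 + U0 3) = b • U0 4
    module

theorem V0_conf {a b : ℝ} (ha : 0 < a) (hb : 0 < b) : IsConf (len a b) (V0 a b) := by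
  intro i
  rw [dist_comm, dist_eq_norm, V0_diff, norm_smul, Real.norm_eq_abs,
    abs_of_pos (len_pos ha hb i)]
  have h := dt_self_eq (U0 i)
  rw [U0_unit] at h
  have : ‖U0 i‖ = 1 := by
    have h2 := norm_nonneg (U0 i)
    nlinarith
  rw [this, mul_one]

theorem coord_le (x : EuclideanSpace ℝ (Fin 3)) : x 0 ≤ ‖x‖ := by
  have h := dt_self_eq x
  have h2 : x 0 ^ 2 ≤ ‖x‖^2 := by
    rw [← h, dt]; nlinarith [sq_nonneg (x 1), sq_nonneg (x 2)]
  exact le_of_abs_le (abs_le_of_sq_le_sq h2 (norm_nonneg _))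

theorem V0_simple {a b : ℝ} (ha : 0 < a) (hb : 0 < b) : IsSimple (V0 a b) := by
  have hL := LL_pos
  have hd := V0_diff a b
  intro i j hij
  have key : (i = 0 ∧ j = 2) ∨ (i = 0 ∧ j = 3) ∨ (i = 0 ∧ j = 4) ∨ (i = 1 ∧ j = 3) ∨
      (i = 1 ∧ j = 4) ∨ (i = 2 ∧ j = 4) := by
    revert i j; decide
  rcases key with ⟨rfl, rfl⟩ | ⟨rfl, rfl⟩ | ⟨rfl, rfl⟩ | ⟨rfl, rfl⟩ | ⟨rfl, rfl⟩ | ⟨rfl, rfl⟩
  · refine line_pair _ _ _ _ (U0 0) (U0 2) (U0 1) a LL ha hL (hd 0) (hd 2) ?_ num13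
    show LL • U0 1 - (0:EuclideanSpace ℝ (Fin 3)) = LL • U0 1
    module
  · refine line_pair _ _ _ _ (U0 0) (U0 3) (U0 1 + U0 2) a LL ha hL (hd 0) (hd 3) ?_ num14
    show LL • (U0 1 + U0 2) - (0:EuclideanSpace ℝ (Fin 3)) = LL • (U0 1 + U0 2)
    module
  · refine line_pair _ _ _ _ (U0 0) (U0 4) (U0 1 + U0 2 + U0 3) a b ha hb (hd 0) (hd 4) ?_ num15
    show LL • (U0 1 + U0 2 + U0 3) - (0:EuclideanSpace ℝ (Fin 3)) = LL • (U0 1 + U0 2 + U0 3)
    module
  · intro p hp q hq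
    obtain ⟨s, hs0, hs1, rfl⟩ := seg_left (hd 1) hL hp
    obtain ⟨t, ht0, ht1, rfl⟩ := seg_right (hd 3) hL hq
    rw [dist_comm, dist_eq_norm]
    refine lt_of_lt_of_le ?_ (coord_le _)
    have e : (V0 a b (Fin.castSucc 3) + t • U0 3 - (V0 a b (Fin.succ 1) - s • U0 1))
        = LL • U0 2 + s • U0 1 + t • U0 3 := by
      show (LL • (U0 1 + U0 2) + t • U0 3 - (LL • U0 1 - s • U0 1)) = _
      module
    rw [e]
    simp only [PiLp.add_apply, PiLp.smul_apply, smul_eq_mul]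
    have h1 : U0 2 0 = 1 := by simp [U0]
    have h2 : U0 1 0 = EX2 := by simp [U0]
    have h3 : U0 3 0 = EX2 := by simp [U0]
    rw [h1, h2, h3]
    have hE : EX2 ≤ 0 := by norm_num [EX2]
    have hE2 : 2 < LL * (1 + 2 * EX2) := by norm_num [EX2, LL]
    have hs1' : s ≤ LL := hs1
    have ht1' : t ≤ LL := ht1
    have k1 := mul_le_mul_of_nonpos_right hs1' hE
    have k2 := mul_le_mul_of_nonpos_right ht1' hE
    linarith
  · refine line_pair _ _ _ _ (U0 1) (U0 4) (U0 2 + U0 3) LL b hL hb (hd 1) (hd 4) ?_ num25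
    show LL • (U0 1 + U0 2 + U0 3) - LL • U0 1 = LL • (U0 2 + U0 3)
    module
  · refine line_pair _ _ _ _ (U0 2) (U0 4) (U0 3) LL b hL hb (hd 2) (hd 4) ?_ num35
    show LL • (U0 1 + U0 2 + U0 3) - LL • (U0 1 + U0 2) = LL • U0 3
    module

/-- directions of the links of a configuration -/
def dirs (ℓ : Fin 5 → ℝ) (w : Fin 6 → EuclideanSpace ℝ (Fin 3)) :
    Fin 5 → EuclideanSpace ℝ (Fin 3) :=
  fun i => (ℓ i)⁻¹ • (w i.succ - w i.castSucc)

theorem dirs_smul {ℓ : Fin 5 → ℝ} (hℓ : ∀ i, 0 < ℓ i) (w : Fin 6 → EuclideanSpace ℝ (Fin 3))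
    (i : Fin 5) : w i.succ - w i.castSucc = ℓ i • dirs ℓ w i := by
  rw [dirs, smul_smul, mul_inv_cancel₀ (hℓ i).ne', one_smul]

theorem dirs_unit {ℓ : Fin 5 → ℝ} (hℓ : ∀ i, 0 < ℓ i) {w : Fin 6 → EuclideanSpace ℝ (Fin 3)}
    (hw : IsConf ℓ w) (i : Fin 5) : dt (dirs ℓ w i) (dirs ℓ w i) = 1 := by
  rw [dt_self_eq, dirs, norm_smul, ← dist_eq_norm, dist_comm, hw i, Real.norm_eq_abs,
    abs_of_pos (inv_pos.2 (hℓ i)), inv_mul_cancel₀ (hℓ i).ne']
  norm_num

theorem cont_dirs (ℓ : Fin 5 → ℝ) {γ : ℝ → Fin 6 → EuclideanSpace ℝ (Fin 3)}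
    (hγ : Continuous γ) : Continuous fun t => dirs ℓ (γ t) := by
  refine continuous_pi fun i => ?_
  unfold dirs
  have h1 : Continuous fun t => γ t i.succ := (continuous_apply i.succ).comp hγ
  have h2 : Continuous fun t => γ t i.castSucc := (continuous_apply i.castSucc).comp hγ
  exact (h1.sub h2).const_smul ((ℓ i)⁻¹)

/-- The key statement: the fat chain with link lengths `(a, L, L, L, b)`, `L = LL`, has a locked
simple configuration as soon as the two end links have length at least `1.00079434 * L`. -/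
theorem locked (a b : ℝ) (ha : (100079434/10^8) * LL ≤ a) (hb : (100079434/10^8) * LL ≤ b) :
    IsLocked (len a b) (V0 a b) := by
  have hL := LL_pos
  have ha0 : 0 < a := lt_of_lt_of_le (by positivity) ha
  have hb0 : 0 < b := lt_of_lt_of_le (by positivity) hb
  have hℓ := fun i => len_pos ha0 hb0 i
  refine ⟨V0_conf ha0 hb0, V0_simple ha0 hb0, ?_⟩
  rintro ⟨γ, hγ, h0, hmot, c, u, hu, hstr⟩
  have hstay := stay (fun t => dirs (len a b) (γ t)) (cont_dirs _ hγ) (by
      have : dirs (len a b) (γ 0) = U0 := by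
        funext i
        rw [h0, dirs, V0_diff, smul_smul, inv_mul_cancel₀ (hℓ i).ne', one_smul]
      rw [this]; exact good_U0) (by
      intro t ht hn hH
      obtain ⟨hconf, hsim⟩ := hmot t ht
      have hd := dirs_smul hℓ (γ t)
      have d0 : γ t 1 - γ t 0 = a • dirs (len a b) (γ t) 0 := hd 0
      have d1 : γ t 2 - γ t 1 = LL • dirs (len a b) (γ t) 1 := hd 1
      have d2 : γ t 3 - γ t 2 = LL • dirs (len a b) (γ t) 2 := hd 2
      have d3 : γ t 4 - γ t 3 = LL • dirs (len a b) (γ t) 3 := hd 3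
      have d4 : γ t 5 - γ t 4 = b • dirs (len a b) (γ t) 4 := hd 4
      have hsa : ∀ s : ℝ, s ≤ 100079434/10^8 → s * LL ≤ a := fun s hs =>
        (mul_le_mul_of_nonneg_right hs hL.le).trans ha
      have hsb : ∀ s : ℝ, s ≤ 100079434/10^8 → s * LL ≤ b := fun s hs =>
        (mul_le_mul_of_nonneg_right hs hL.le).trans hb
      have hsL : ∀ s : ℝ, s ≤ 1 → s * LL ≤ LL := fun s hs => by
        simpa using mul_le_mul_of_nonneg_right hs hL.le
      refine inner_step (dirs (len a b) (γ t)) (dirs_unit hℓ hconf) ?_ ?_ ?_ ?_ ?_ hn hH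
      · intro s r hs0 hs1 hr0 hr1
        exact contact_of_simple (γ t 0) (γ t 1) (γ t 2) (γ t 3) _ _ _ a LL ha0 hL d0 d2 d1
          (hsim 0 2 (by decide)) s r hs0 (hsa s hs1) hr0 (hsL r hr1)
      · intro s r hs0 hs1 hr0 hr1
        exact contact_of_simple (γ t 2) (γ t 3) (γ t 4) (γ t 5) _ _ _ LL b hL hb0 d2 d4 d3
          (hsim 2 4 (by decide)) s r hs0 (hsL s hs1) hr0 (hsb r hr1)
      · intro s r hs0 hs1 hr0 hr1
        exact contact_of_simple (γ t 0) (γ t 1) (γ t 3) (γ t 4) _ _ _ a LL ha0 hL d0 d3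
          (by rw [smul_add, ← d1, ← d2]; abel)
          (hsim 0 3 (by decide)) s r hs0 (hsa s hs1) hr0 (hsL r hr1)
      · intro s r hs0 hs1 hr0 hr1
        exact contact_of_simple (γ t 1) (γ t 2) (γ t 4) (γ t 5) _ _ _ LL b hL hb0 d1 d4
          (by rw [smul_add, ← d2, ← d3]; abel)
          (hsim 1 4 (by decide)) s r hs0 (hsL s hs1) hr0 (hsb r hr1)
      · intro s r hs0 hs1 hr0 hr1
        exact contact_of_simple (γ t 0) (γ t 1) (γ t 4) (γ t 5) _ _ _ a b ha0 hb0 d0 d4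
          (by rw [smul_add, smul_add, ← d1, ← d2, ← d3]; abel)
          (hsim 0 4 (by decide)) s r hs0 (hsa s hs1) hr0 (hsb r hr1))
  -- at time one the chain is straight
  have hdir : ∀ i, dirs (len a b) (γ 1) i = u := by
    intro i
    have hsum : ∀ i : Fin 5, (∑ k : Fin 5 with k.val < i.succ.val, len a b k)
        - (∑ k : Fin 5 with k.val < i.castSucc.val, len a b k) = len a b i := by
      intro i
      rw [Finset.sum_filter, Finset.sum_filter]
      fin_cases i <;> simp [Fin.sum_univ_five]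
    rw [dirs, hstr, hstr]
    have : c + (∑ k : Fin 5 with k.val < i.succ.val, len a b k) • u
        - (c + (∑ k : Fin 5 with k.val < i.castSucc.val, len a b k) • u) = len a b i • u := by
      rw [← hsum i]; module
    rw [this, smul_smul, inv_mul_cancel₀ (hℓ i).ne', one_smul]
  have hunit : dt u u = 1 := by rw [dt_self_eq, hu]; norm_num
  have hev : ev (dirs (len a b) (γ 1)) = 0 := by
    rw [ev, hdir, hdir, hdir, dt_add, hunit]; module
  have : nn (dirs (len a b) (γ 1)) = 0 := by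
    rw [nn, hev]; simp [dt]
  rw [this] at hstay
  norm_num at hstay

end

end Pool.Agent.H95.Fat
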