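import Pool.Agent.H95.Fat.Quad

set_option autoImplicit false
set_option linter.unusedVariables false
set_option linter.unusedSimpArgs false

namespace Pool.Agent.H95.Fat

theorem small_of_sq {x : ℝ} (h : x^2 ≤ 2/10^20) : |x| ≤ 2/10^10 := by
  apply abs_le_of_sq_le_sq _ (by norm_num)
  exact h.trans (by norm_num)

theorem norm_u1 : |X1^2+Y1^2+Z1^2 - 1| ≤ 1/10^27 := by
  rw [abs_le]; constructor <;> norm_num [X1, Y1, Z1]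

theorem norm_u2 : |X2^2+Y2^2+Z2^2 - 1| ≤ 1/10^27 := by
  rw [abs_le]; constructor <;> norm_num [X2, Y2, Z2]

/-- the scalar product of a small displacement on the sphere with the base point is tiny. -/
theorem lin_tiny (X Y Z p q r : ℝ) (hN : |X^2+Y^2+Z^2 - 1| ≤ 1/10^27)
    (h1 : (X+p)^2+(Y+q)^2+(Z+r)^2 = 1) (hs : p^2+q^2+r^2 ≤ 2/10^20) :
    (X*p+Y*q+Z*r)^2 ≤ 1/10^30 := by
  have h2 : X*p+Y*q+Z*r = -((X^2+Y^2+Z^2-1) + (p^2+q^2+r^2))/2 := by linarith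
  have h3 : |X*p+Y*q+Z*r| ≤ 2/10^20 := by
    rw [h2, abs_le]
    rw [abs_le] at hN
    have hp := sq_nonneg p
    have hq := sq_nonneg q
    have hr := sq_nonneg r
    constructor <;> norm_num at * <;> linarith [hN.1, hN.2]
  have h4 := mul_le_mul h3 h3 (abs_nonneg _) (by norm_num)
  rw [abs_mul_abs_self, ← sq] at h4
  exact h4.trans (by norm_num)

/-- Key estimate: in the shell around the reference directions not all five contacts can be open. -/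
theorem key (x1 y1 z1 x2 y2 z2 x4 y4 x5 y5 z5 : ℝ)
    (n1 : x1^2+y1^2+z1^2 = 1) (n2 : x2^2+y2^2+z2^2 = 1)
    (n4 : x4^2+y4^2+z2^2 = 1) (n5 : x5^2+y5^2+z5^2 = 1)
    (hclose : (x1-X1)^2+(y1-Y1)^2+(z1-Z1)^2+(x2-X2)^2+(y2-Y2)^2+(z2-Z2)^2
      +(x4-X2)^2+(y4-Y2)^2+(z2-Z2)^2+(x5-X1)^2+(y5-Y1)^2+(z5+Z1)^2 ≤ 2/10^20)
    (hd13 : ∀ s t : ℝ, 0 ≤ s → s ≤ 100079434/10^8 → 0 ≤ t → t ≤ 1 →
      thr < (s*x1+x2+t)^2+(s*y1+y2)^2+(s*z1+z2)^2)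
    (hd35 : ∀ s t : ℝ, 0 ≤ s → s ≤ 100079434/10^8 → 0 ≤ t → t ≤ 1 →
      thr < (t+x4+s*x5)^2+(y4+s*y5)^2+(-z2+s*z5)^2)
    (hd14 : ∀ s t : ℝ, 0 ≤ s → s ≤ 100079434/10^8 → 0 ≤ t → t ≤ 1 →
      thr < (s*x1+x2+1+t*x4)^2+(s*y1+y2+t*y4)^2+(s*z1+z2-t*z2)^2)
    (hd25 : ∀ s t : ℝ, 0 ≤ s → s ≤ 100079434/10^8 → 0 ≤ t → t ≤ 1 →
      thr < (t*x2+1+x4+s*x5)^2+(t*y2+y4+s*y5)^2+(t*z2-z2+s*z5)^2)
    (hd15 : ∀ s t : ℝ, 0 ≤ s → s ≤ 100079434/10^8 → 0 ≤ t → t ≤ 100079434/10^8 →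
      thr < (s*x1+x2+1+x4+t*x5)^2+(s*y1+y2+y4+t*y5)^2+(s*z1+t*z5)^2) :
    (x1-X1)^2+(y1-Y1)^2+(z1-Z1)^2+(x2-X2)^2+(y2-Y2)^2+(z2-Z2)^2
      +(x4-X2)^2+(y4-Y2)^2+(z2-Z2)^2+(x5-X1)^2+(y5-Y1)^2+(z5+Z1)^2 < (1/2)/10^20 := by
  by_contra hcon
  push Not at hcon
  have q1 := sq_nonneg (x1-X1)
  have q2 := sq_nonneg (y1-Y1)
  have q3 := sq_nonneg (z1-Z1)
  have q4 := sq_nonneg (x2-X2)
  have q5 := sq_nonneg (y2-Y2)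
  have q6 := sq_nonneg (z2-Z2)
  have q7 := sq_nonneg (x4-X2)
  have q8 := sq_nonneg (y4-Y2)
  have q9 := sq_nonneg (x5-X1)
  have q10 := sq_nonneg (y5-Y1)
  have q11 := sq_nonneg (z5+Z1)
  have b1 : |x1-X1| ≤ 2/10^10 := small_of_sq (by linarith)
  have b2 : |y1-Y1| ≤ 2/10^10 := small_of_sq (by linarith)
  have b3 : |z1-Z1| ≤ 2/10^10 := small_of_sq (by linarith)
  have b4 : |x2-X2| ≤ 2/10^10 := small_of_sq (by linarith)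
  have b5 : |y2-Y2| ≤ 2/10^10 := small_of_sq (by linarith)
  have b6 : |z2-Z2| ≤ 2/10^10 := small_of_sq (by linarith)
  have b7 : |x4-X2| ≤ 2/10^10 := small_of_sq (by linarith)
  have b8 : |y4-Y2| ≤ 2/10^10 := small_of_sq (by linarith)
  have b9 : |x5-X1| ≤ 2/10^10 := small_of_sq (by linarith)
  have b10 : |y5-Y1| ≤ 2/10^10 := small_of_sq (by linarith)
  have b11 : |z5+Z1| ≤ 2/10^10 := small_of_sq (by linarith)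
  have b11' : |-(z5+Z1)| ≤ 2/10^10 := by rwa [abs_neg]
  have b6' : |-(z2-Z2)| ≤ 2/10^10 := by rwa [abs_neg]
  -- contact (1,3)
  have T1 : -(1/10^25) < T13 (x1-X1) (y1-Y1) (z1-Z1) (x2-X2) (y2-Y2) (z2-Z2) := by
    have hs := abs_le.mp (sg13_bound _ _ _ _ _ _ b1 b2 b3 b4 b5 b6)
    have ht := abs_le.mp (ta13_bound _ _ _ _ _ _ b1 b2 b3 b4 b5 b6)
    apply T13_pos _ _ _ _ _ _ b1 b2 b3 b4 b5 b6
    refine lt_of_lt_of_eq (hd13 (s13 + sg13 (x1-X1) (y1-Y1) (z1-Z1) (x2-X2) (y2-Y2) (z2-Z2))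
      (t13 + ta13 (x1-X1) (y1-Y1) (z1-Z1) (x2-X2) (y2-Y2) (z2-Z2)) ?_ ?_ ?_ ?_) (by ring)
    all_goals
      norm_num [s13, t13] at *
      linarith [hs.1, hs.2, ht.1, ht.2]
  have T2 : -(1/10^25) < T13 (x5-X1) (y5-Y1) (-(z5+Z1)) (x4-X2) (y4-Y2) (z2-Z2) := by
    have hs := abs_le.mp (sg13_bound _ _ _ _ _ _ b9 b10 b11' b7 b8 b6)
    have ht := abs_le.mp (ta13_bound _ _ _ _ _ _ b9 b10 b11' b7 b8 b6)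
    apply T13_pos _ _ _ _ _ _ b9 b10 b11' b7 b8 b6
    refine lt_of_lt_of_eq (hd35 (s13 + sg13 (x5-X1) (y5-Y1) (-(z5+Z1)) (x4-X2) (y4-Y2) (z2-Z2))
      (t13 + ta13 (x5-X1) (y5-Y1) (-(z5+Z1)) (x4-X2) (y4-Y2) (z2-Z2)) ?_ ?_ ?_ ?_) (by ring)
    all_goals
      norm_num [s13, t13] at *
      linarith [hs.1, hs.2, ht.1, ht.2]
  have T3 : -(1/10^25) < T14 (x1-X1) (y1-Y1) (z1-Z1) (x2-X2) (y2-Y2) (z2-Z2)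
      (x4-X2) (y4-Y2) (-(z2-Z2)) := by
    have hs := abs_le.mp (sg14_bound _ _ _ _ _ _ _ _ _ b1 b2 b3 b4 b5 b6 b7 b8 b6')
    have ht := abs_le.mp (ta14_bound _ _ _ _ _ _ _ _ _ b1 b2 b3 b4 b5 b6 b7 b8 b6')
    apply T14_pos _ _ _ _ _ _ _ _ _ b1 b2 b3 b4 b5 b6 b7 b8 b6'
    refine lt_of_lt_of_eq (hd14
      (s14 + sg14 (x1-X1) (y1-Y1) (z1-Z1) (x2-X2) (y2-Y2) (z2-Z2) (x4-X2) (y4-Y2) (-(z2-Z2)))
      (t14 + ta14 (x1-X1) (y1-Y1) (z1-Z1) (x2-X2) (y2-Y2) (z2-Z2) (x4-X2) (y4-Y2) (-(z2-Z2)))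
      ?_ ?_ ?_ ?_) (by ring)
    all_goals
      norm_num [s14, t14] at *
      linarith [hs.1, hs.2, ht.1, ht.2]
  have T4 : -(1/10^25) < T14 (x5-X1) (y5-Y1) (-(z5+Z1)) (x4-X2) (y4-Y2) (z2-Z2)
      (x2-X2) (y2-Y2) (-(z2-Z2)) := by
    have hs := abs_le.mp (sg14_bound _ _ _ _ _ _ _ _ _ b9 b10 b11' b7 b8 b6 b4 b5 b6')
    have ht := abs_le.mp (ta14_bound _ _ _ _ _ _ _ _ _ b9 b10 b11' b7 b8 b6 b4 b5 b6')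
    apply T14_pos _ _ _ _ _ _ _ _ _ b9 b10 b11' b7 b8 b6 b4 b5 b6'
    refine lt_of_lt_of_eq (hd25
      (s14 + sg14 (x5-X1) (y5-Y1) (-(z5+Z1)) (x4-X2) (y4-Y2) (z2-Z2) (x2-X2) (y2-Y2) (-(z2-Z2)))
      (t14 + ta14 (x5-X1) (y5-Y1) (-(z5+Z1)) (x4-X2) (y4-Y2) (z2-Z2) (x2-X2) (y2-Y2) (-(z2-Z2)))
      ?_ ?_ ?_ ?_) (by ring)
    all_goals
      norm_num [s14, t14] at *
      linarith [hs.1, hs.2, ht.1, ht.2]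
  have T5 : -(1/10^25) < T15 (x1-X1) (y1-Y1) (z1-Z1) (x2-X2) (y2-Y2) (z2-Z2)
      (x4-X2) (y4-Y2) (-(z2-Z2)) (x5-X1) (y5-Y1) (z5+Z1) := by
    have hs := abs_le.mp (sg15_bound _ _ _ _ _ _ _ _ _ _ _ _ b1 b2 b3 b4 b5 b6 b7 b8 b6' b9 b10 b11)
    have ht := abs_le.mp (ta15_bound _ _ _ _ _ _ _ _ _ _ _ _ b1 b2 b3 b4 b5 b6 b7 b8 b6' b9 b10 b11)
    apply T15_pos _ _ _ _ _ _ _ _ _ _ _ _ b1 b2 b3 b4 b5 b6 b7 b8 b6' b9 b10 b11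
    refine lt_of_lt_of_eq (hd15
      (s15 + sg15 (x1-X1) (y1-Y1) (z1-Z1) (x2-X2) (y2-Y2) (z2-Z2) (x4-X2) (y4-Y2) (-(z2-Z2))
        (x5-X1) (y5-Y1) (z5+Z1))
      (s15 + ta15 (x1-X1) (y1-Y1) (z1-Z1) (x2-X2) (y2-Y2) (z2-Z2) (x4-X2) (y4-Y2) (-(z2-Z2))
        (x5-X1) (y5-Y1) (z5+Z1))
      ?_ ?_ ?_ ?_) (by ring)
    all_goals
      norm_num [s15] at *
      linarith [hs.1, hs.2, ht.1, ht.2]
  -- the quadratic form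
  have B1 := abs_le.mp b1
  have B2 := abs_le.mp b2
  have B3 := abs_le.mp b3
  have B4 := abs_le.mp b4
  have B5 := abs_le.mp b5
  have B6 := abs_le.mp b6
  have B7 := abs_le.mp b7
  have B8 := abs_le.mp b8
  have B9 := abs_le.mp b9
  have B10 := abs_le.mp b10
  have B11 := abs_le.mp b11
  have Q := quad_le (((x1-X1)+(x5-X1))/2) (((y1-Y1)+(y5-Y1))/2) (((z1-Z1)-(z5+Z1))/2)
    (((x2-X2)+(x4-X2))/2) (((y2-Y2)+(y4-Y2))/2) (z2-Z2)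
    (((x1-X1)-(x5-X1))/2) (((y1-Y1)-(y5-Y1))/2) (((z1-Z1)+(z5+Z1))/2)
    (((x2-X2)-(x4-X2))/2) (((y2-Y2)-(y4-Y2))/2)
    (by rw [abs_le]; constructor <;> linarith [B1.1, B1.2, B9.1, B9.2])
    (by rw [abs_le]; constructor <;> linarith [B2.1, B2.2, B10.1, B10.2])
    (by rw [abs_le]; constructor <;> linarith [B3.1, B3.2, B11.1, B11.2])
    (by rw [abs_le]; constructor <;> linarith [B4.1, B4.2, B7.1, B7.2])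
    (by rw [abs_le]; constructor <;> linarith [B5.1, B5.2, B8.1, B8.2]) b6
  have r1 : ((x1-X1)+(x5-X1))/2 + ((x1-X1)-(x5-X1))/2 = x1 - X1 := by ring
  have r2 : ((y1-Y1)+(y5-Y1))/2 + ((y1-Y1)-(y5-Y1))/2 = y1 - Y1 := by ring
  have r3 : ((z1-Z1)-(z5+Z1))/2 + ((z1-Z1)+(z5+Z1))/2 = z1 - Z1 := by ring
  have r4 : ((x2-X2)+(x4-X2))/2 + ((x2-X2)-(x4-X2))/2 = x2 - X2 := by ring
  have r5 : ((y2-Y2)+(y4-Y2))/2 + ((y2-Y2)-(y4-Y2))/2 = y2 - Y2 := by ring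
  have r6 : ((x1-X1)+(x5-X1))/2 - ((x1-X1)-(x5-X1))/2 = x5 - X1 := by ring
  have r7 : ((y1-Y1)+(y5-Y1))/2 - ((y1-Y1)-(y5-Y1))/2 = y5 - Y1 := by ring
  have r8 : ((z1-Z1)-(z5+Z1))/2 - ((z1-Z1)+(z5+Z1))/2 = -(z5 + Z1) := by ring
  have r9 : ((x2-X2)+(x4-X2))/2 - ((x2-X2)-(x4-X2))/2 = x4 - X2 := by ring
  have r10 : ((y2-Y2)+(y4-Y2))/2 - ((y2-Y2)-(y4-Y2))/2 = y4 - Y2 := by ring
  rw [r1, r2, r3, r4, r5, r6, r7, r8, r9, r10, neg_neg] at Q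
  have L1 := lin_tiny X1 Y1 Z1 (x1-X1) (y1-Y1) (z1-Z1) norm_u1 (by rw [← n1]; ring) (by linarith)
  have L5 := lin_tiny X1 Y1 Z1 (x5-X1) (y5-Y1) (-(z5+Z1)) norm_u1 (by rw [← n5]; ring)
    (by rw [neg_sq]; linarith)
  have L2 := lin_tiny X2 Y2 Z2 (x2-X2) (y2-Y2) (z2-Z2) norm_u2 (by rw [← n2]; ring) (by linarith)
  have L4 := lin_tiny X2 Y2 Z2 (x4-X2) (y4-Y2) (z2-Z2) norm_u2 (by rw [← n4]; ring) (by linarith)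
  have hu2 := abs_le.mp norm_u2
  have E2 : 2 * (X2*(x2-X2)+Y2*(y2-Y2)+Z2*(z2-Z2)) + ((x2-X2)^2+(y2-Y2)^2+(z2-Z2)^2) ≤ 1/10^27 := by
    have : 2 * (X2*(x2-X2)+Y2*(y2-Y2)+Z2*(z2-Z2)) + ((x2-X2)^2+(y2-Y2)^2+(z2-Z2)^2)
        = (x2^2+y2^2+z2^2) - (X2^2+Y2^2+Z2^2) := by ring
    rw [this, n2]; linarith [hu2.1]
  have E4 : 2 * (X2*(x4-X2)+Y2*(y4-Y2)+Z2*(z2-Z2)) + ((x4-X2)^2+(y4-Y2)^2+(z2-Z2)^2) ≤ 1/10^27 := by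
    have : 2 * (X2*(x4-X2)+Y2*(y4-Y2)+Z2*(z2-Z2)) + ((x4-X2)^2+(y4-Y2)^2+(z2-Z2)^2)
        = (x4^2+y4^2+z2^2) - (X2^2+Y2^2+Z2^2) := by ring
    rw [this, n4]; linarith [hu2.1]
  have lam_pos : 0 ≤ lam2 := by norm_num [lam2]
  have lam_le : lam2 ≤ 1 := by norm_num [lam2]
  have E2' := mul_le_mul_of_nonneg_left E2 lam_pos
  have E4' := mul_le_mul_of_nonneg_left E4 lam_pos
  have hl : lam2 * (1/10^27) ≤ 1 * (1/10^27) := mul_le_mul_of_nonneg_right lam_le (by norm_num)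
  have hr2 : (((x1-X1)+(x5-X1))/2)^2 + (((y1-Y1)+(y5-Y1))/2)^2 + (((z1-Z1)-(z5+Z1))/2)^2
      + (((x2-X2)+(x4-X2))/2)^2 + (((y2-Y2)+(y4-Y2))/2)^2 + (z2-Z2)^2
      + (((x1-X1)-(x5-X1))/2)^2 + (((y1-Y1)-(y5-Y1))/2)^2 + (((z1-Z1)+(z5+Z1))/2)^2
      + (((x2-X2)-(x4-X2))/2)^2 + (((y2-Y2)-(y4-Y2))/2)^2
      = ((x1-X1)^2+(y1-Y1)^2+(z1-Z1)^2+(x2-X2)^2+(y2-Y2)^2+(z2-Z2)^2
      +(x4-X2)^2+(y4-Y2)^2+(z2-Z2)^2+(x5-X1)^2+(y5-Y1)^2+(z5+Z1)^2)/2 := by ring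
  rw [hr2] at Q
  norm_num at *
  linarith

end Pool.Agent.H95.Fat
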