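import Mathlib
import Pool.Agent.H95.Fat.Main1

/-! Frames: from a configuration of unit vectors in space to coordinates. -/

set_option autoImplicit false
set_option linter.unusedVariables false
set_option linter.unusedSimpArgs false

namespace Pool.Agent.H95.Fat

/-- scalar product in coordinates -/
def dt (a b : EuclideanSpace ℝ (Fin 3)) : ℝ := a 0 * b 0 + a 1 * b 1 + a 2 * b 2

/-- determinant in coordinates -/
def dd (a b c : EuclideanSpace ℝ (Fin 3)) : ℝ :=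
  a 0 * (b 1 * c 2 - b 2 * c 1) - a 1 * (b 0 * c 2 - b 2 * c 0) + a 2 * (b 0 * c 1 - b 1 * c 0)

theorem dt_add (a b c : EuclideanSpace ℝ (Fin 3)) : dt a (b + c) = dt a b + dt a c := by
  simp only [dt, PiLp.add_apply]; ring

theorem dt_smul (a b : EuclideanSpace ℝ (Fin 3)) (r : ℝ) : dt a (r • b) = r * dt a b := by
  simp only [dt, PiLp.smul_apply, smul_eq_mul]; ring

theorem dt_sub (a b c : EuclideanSpace ℝ (Fin 3)) : dt a (b - c) = dt a b - dt a c := by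
  simp only [dt, PiLp.sub_apply]; ring

theorem dt_comm (a b : EuclideanSpace ℝ (Fin 3)) : dt a b = dt b a := by
  simp only [dt]; ring

theorem dd_add (a b c d : EuclideanSpace ℝ (Fin 3)) : dd a b (c + d) = dd a b c + dd a b d := by
  simp only [dd, PiLp.add_apply]; ring

theorem dd_smul (a b c : EuclideanSpace ℝ (Fin 3)) (r : ℝ) : dd a b (r • c) = r * dd a b c := by
  simp only [dd, PiLp.smul_apply, smul_eq_mul]; ring

theorem dd_self1 (a b : EuclideanSpace ℝ (Fin 3)) : dd a b a = 0 := by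
  simp only [dd]; ring

theorem dd_self2 (a b : EuclideanSpace ℝ (Fin 3)) : dd a b b = 0 := by
  simp only [dd]; ring

theorem dt_self_eq (a : EuclideanSpace ℝ (Fin 3)) : dt a a = ‖a‖^2 := by
  rw [EuclideanSpace.norm_sq_eq, Fin.sum_univ_three]
  simp only [dt, Real.norm_eq_abs, sq_abs]; ring

theorem gram (a e v : EuclideanSpace ℝ (Fin 3)) :
    (dd a e v)^2 = dt a a * dt e e * dt v v + 2 * dt a e * dt e v * dt a v
      - dt a a * (dt e v)^2 - dt e e * (dt a v)^2 - dt v v * (dt a e)^2 := by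
  simp only [dd, dt]; ring

theorem frame (a e v : EuclideanSpace ℝ (Fin 3)) (n : ℝ) (hn : 0 < n) (ha : dt a a = 1)
    (hae : dt a e = 0) (hee : dt e e = n^2) :
    dt v v = (dt a v)^2 + (dt e v / n)^2 + (dd a e v / n)^2 := by
  have h := gram a e v
  rw [ha, hae, hee] at h
  have h2 : (dd a e v / n)^2 = (n^2 * dt v v - (dt e v)^2 - n^2 * (dt a v)^2) / n^2 := by
    rw [div_pow, h]; ring_nf
  rw [h2]
  field_simp
  ring

/-- the reference vector orthogonal to the middle link -/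
noncomputable def ev (u : Fin 5 → EuclideanSpace ℝ (Fin 3)) : EuclideanSpace ℝ (Fin 3) :=
  (u 1 + u 3) - dt (u 2) (u 1 + u 3) • u 2

noncomputable def nn (u : Fin 5 → EuclideanSpace ℝ (Fin 3)) : ℝ := Real.sqrt (dt (ev u) (ev u))

/-- scaled squared distance to the reference directions -/
noncomputable def HH (u : Fin 5 → EuclideanSpace ℝ (Fin 3)) : ℝ :=
  (nn u * dt (u 2) (u 0) - nn u * X1)^2 + (dt (ev u) (u 0) - nn u * Y1)^2
    + (dd (u 2) (ev u) (u 0) - nn u * Z1)^2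
  + ((nn u * dt (u 2) (u 1) - nn u * X2)^2 + (dt (ev u) (u 1) - nn u * Y2)^2
    + (dd (u 2) (ev u) (u 1) - nn u * Z2)^2)
  + ((nn u * dt (u 2) (u 3) - nn u * X2)^2 + (dt (ev u) (u 3) - nn u * Y2)^2
    + (dd (u 2) (ev u) (u 3) + nn u * Z2)^2)
  + ((nn u * dt (u 2) (u 4) - nn u * X1)^2 + (dt (ev u) (u 4) - nn u * Y1)^2
    + (dd (u 2) (ev u) (u 4) + nn u * Z1)^2)

theorem inner_step (u : Fin 5 → EuclideanSpace ℝ (Fin 3)) (hu : ∀ i, dt (u i) (u i) = 1)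
    (hd13 : ∀ s t : ℝ, 0 ≤ s → s ≤ 100079434/10^8 → 0 ≤ t → t ≤ 1 →
      thr < dt (s • u 0 + u 1 + t • u 2) (s • u 0 + u 1 + t • u 2))
    (hd35 : ∀ s t : ℝ, 0 ≤ s → s ≤ 1 → 0 ≤ t → t ≤ 100079434/10^8 →
      thr < dt (s • u 2 + u 3 + t • u 4) (s • u 2 + u 3 + t • u 4))
    (hd14 : ∀ s t : ℝ, 0 ≤ s → s ≤ 100079434/10^8 → 0 ≤ t → t ≤ 1 →
      thr < dt (s • u 0 + (u 1 + u 2) + t • u 3) (s • u 0 + (u 1 + u 2) + t • u 3))
    (hd25 : ∀ s t : ℝ, 0 ≤ s → s ≤ 1 → 0 ≤ t → t ≤ 100079434/10^8 →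
      thr < dt (s • u 1 + (u 2 + u 3) + t • u 4) (s • u 1 + (u 2 + u 3) + t • u 4))
    (hd15 : ∀ s t : ℝ, 0 ≤ s → s ≤ 100079434/10^8 → 0 ≤ t → t ≤ 100079434/10^8 →
      thr < dt (s • u 0 + (u 1 + u 2 + u 3) + t • u 4) (s • u 0 + (u 1 + u 2 + u 3) + t • u 4))
    (hn : 1 ≤ nn u) (hH : HH u ≤ (2/10^20) * (nn u)^2) :
    1 < nn u ∧ HH u < (2/10^20) * (nn u)^2 := by
  have hnpos : 0 < nn u := by linarith
  have hn0 : nn u ≠ 0 := hnpos.ne'
  have ha : dt (u 2) (u 2) = 1 := hu 2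
  have hae : dt (u 2) (ev u) = 0 := by
    rw [ev, dt_sub, dt_smul, ha]; ring
  have hee : dt (ev u) (ev u) = (nn u)^2 := by
    rw [nn, Real.sq_sqrt]
    rw [dt_self_eq]; positivity
  have hea : dt (ev u) (u 2) = 0 := by rw [dt_comm]; exact hae
  have hF := fun v => frame (u 2) (ev u) v (nn u) hnpos ha hae hee
  have hsum : u 1 + u 3 = ev u + dt (u 2) (u 1 + u 3) • u 2 := by
    rw [ev]; abel
  have hz : dd (u 2) (ev u) (u 1) + dd (u 2) (ev u) (u 3) = 0 := by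
    rw [← dd_add, hsum, dd_add, dd_smul, dd_self1, dd_self2]; ring
  have hy : dt (ev u) (u 1) + dt (ev u) (u 3) = (nn u)^2 := by
    rw [← dt_add, hsum, dt_add, dt_smul, hea, hee]; ring
  obtain ⟨x1, hx1⟩ : ∃ x, x = dt (u 2) (u 0) := ⟨_, rfl⟩
  obtain ⟨y1, hy1⟩ : ∃ x, x = dt (ev u) (u 0) / nn u := ⟨_, rfl⟩
  obtain ⟨z1, hz1⟩ : ∃ x, x = dd (u 2) (ev u) (u 0) / nn u := ⟨_, rfl⟩
  obtain ⟨x2, hx2⟩ : ∃ x, x = dt (u 2) (u 1) := ⟨_, rfl⟩
  obtain ⟨y2, hy2⟩ : ∃ x, x = dt (ev u) (u 1) / nn u := ⟨_, rfl⟩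
  obtain ⟨z2, hz2⟩ : ∃ x, x = dd (u 2) (ev u) (u 1) / nn u := ⟨_, rfl⟩
  obtain ⟨x4, hx4⟩ : ∃ x, x = dt (u 2) (u 3) := ⟨_, rfl⟩
  obtain ⟨y4, hy4⟩ : ∃ x, x = dt (ev u) (u 3) / nn u := ⟨_, rfl⟩
  obtain ⟨x5, hx5⟩ : ∃ x, x = dt (u 2) (u 4) := ⟨_, rfl⟩
  obtain ⟨y5, hy5⟩ : ∃ x, x = dt (ev u) (u 4) / nn u := ⟨_, rfl⟩
  obtain ⟨z5, hz5⟩ : ∃ x, x = dd (u 2) (ev u) (u 4) / nn u := ⟨_, rfl⟩
  have e1 : dt (u 2) (u 0) = x1 := hx1.symm
  have e2 : dt (ev u) (u 0) = nn u * y1 := by rw [hy1]; field_simp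
  have e3 : dd (u 2) (ev u) (u 0) = nn u * z1 := by rw [hz1]; field_simp
  have e4 : dt (u 2) (u 1) = x2 := hx2.symm
  have e5 : dt (ev u) (u 1) = nn u * y2 := by rw [hy2]; field_simp
  have e6 : dd (u 2) (ev u) (u 1) = nn u * z2 := by rw [hz2]; field_simp
  have e7 : dt (u 2) (u 3) = x4 := hx4.symm
  have e8 : dt (ev u) (u 3) = nn u * y4 := by rw [hy4]; field_simp
  have e9 : dd (u 2) (ev u) (u 3) = nn u * (-z2) := by
    have : dd (u 2) (ev u) (u 3) = - dd (u 2) (ev u) (u 1) := by linarith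
    rw [this, e6]; ring
  have e10 : dt (u 2) (u 4) = x5 := hx5.symm
  have e11 : dt (ev u) (u 4) = nn u * y5 := by rw [hy5]; field_simp
  have e12 : dd (u 2) (ev u) (u 4) = nn u * z5 := by rw [hz5]; field_simp
  have hdiv : ∀ y : ℝ, nn u * y / nn u = y := fun y => by field_simp
  have n1 : x1^2+y1^2+z1^2 = 1 := by
    have h := hF (u 0)
    rw [hu 0, e1, e2, e3, hdiv, hdiv] at h; exact h.symm
  have n2 : x2^2+y2^2+z2^2 = 1 := by
    have h := hF (u 1)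
    rw [hu 1, e4, e5, e6, hdiv, hdiv] at h; exact h.symm
  have n4 : x4^2+y4^2+z2^2 = 1 := by
    have h := hF (u 3)
    rw [hu 3, e7, e8, e9, hdiv, hdiv] at h
    rw [neg_sq] at h; exact h.symm
  have n5 : x5^2+y5^2+z5^2 = 1 := by
    have h := hF (u 4)
    rw [hu 4, e10, e11, e12, hdiv, hdiv] at h; exact h.symm
  have hHH : HH u = (nn u)^2 * ((x1-X1)^2+(y1-Y1)^2+(z1-Z1)^2+(x2-X2)^2+(y2-Y2)^2+(z2-Z2)^2
      +(x4-X2)^2+(y4-Y2)^2+(z2-Z2)^2+(x5-X1)^2+(y5-Y1)^2+(z5+Z1)^2) := by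
    rw [HH, e1, e2, e3, e4, e5, e6, e7, e8, e9, e10, e11, e12]; ring
  have hclose : (x1-X1)^2+(y1-Y1)^2+(z1-Z1)^2+(x2-X2)^2+(y2-Y2)^2+(z2-Z2)^2
      +(x4-X2)^2+(y4-Y2)^2+(z2-Z2)^2+(x5-X1)^2+(y5-Y1)^2+(z5+Z1)^2 ≤ 2/10^20 := by
    rw [hHH, mul_comm] at hH
    exact le_of_mul_le_mul_right hH (by positivity)
  have hk := key x1 y1 z1 x2 y2 z2 x4 y4 x5 y5 z5 n1 n2 n4 n5 hclose
    (by
      intro s t h1 h2 h3 h4
      refine lt_of_lt_of_eq (hd13 s t h1 h2 h3 h4) ?_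
      rw [hF]
      simp only [dt_add, dt_smul, dd_add, dd_smul, ha, hea, dd_self1, e1, e2, e3, e4, e5, e6]
      field_simp
      ring)
    (by
      intro s t h1 h2 h3 h4
      refine lt_of_lt_of_eq (hd35 t s h3 h4 h1 h2) ?_
      rw [hF]
      simp only [dt_add, dt_smul, dd_add, dd_smul, ha, hea, dd_self1, e7, e8, e9, e10, e11, e12]
      field_simp
      ring)
    (by
      intro s t h1 h2 h3 h4
      refine lt_of_lt_of_eq (hd14 s t h1 h2 h3 h4) ?_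
      rw [hF]
      simp only [dt_add, dt_smul, dd_add, dd_smul, ha, hea, dd_self1, e1, e2, e3, e4, e5, e6,
        e7, e8, e9]
      field_simp
      ring)
    (by
      intro s t h1 h2 h3 h4
      refine lt_of_lt_of_eq (hd25 t s h3 h4 h1 h2) ?_
      rw [hF]
      simp only [dt_add, dt_smul, dd_add, dd_smul, ha, hea, dd_self1, e4, e5, e6, e7, e8, e9,
        e10, e11, e12]
      field_simp
      ring)
    (by
      intro s t h1 h2 h3 h4
      refine lt_of_lt_of_eq (hd15 s t h1 h2 h3 h4) ?_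
      rw [hF]
      simp only [dt_add, dt_smul, dd_add, dd_smul, ha, hea, dd_self1, e1, e2, e3, e4, e5, e6,
        e7, e8, e9, e10, e11, e12]
      field_simp
      ring)
  constructor
  · have hny : nn u = y2 + y4 := by
      have : nn u * nn u = nn u * (y2 + y4) := by
        rw [e5, e8] at hy; rw [← sq, ← hy]; ring
      exact mul_left_cancel₀ hn0 this
    have b5 : |y2 - Y2| ≤ 2/10^10 := small_of_sq (by
      have := sq_nonneg (x1-X1); have := sq_nonneg (y1-Y1); have := sq_nonneg (z1-Z1)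
      have := sq_nonneg (x2-X2); have := sq_nonneg (z2-Z2); have := sq_nonneg (x4-X2)
      have := sq_nonneg (y4-Y2); have := sq_nonneg (x5-X1); have := sq_nonneg (y5-Y1)
      have := sq_nonneg (z5+Z1)
      linarith)
    have b8 : |y4 - Y2| ≤ 2/10^10 := small_of_sq (by
      have := sq_nonneg (x1-X1); have := sq_nonneg (y1-Y1); have := sq_nonneg (z1-Z1)
      have := sq_nonneg (x2-X2); have := sq_nonneg (z2-Z2); have := sq_nonneg (x4-X2)
      have := sq_nonneg (y2-Y2); have := sq_nonneg (x5-X1); have := sq_nonneg (y5-Y1)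
      have := sq_nonneg (z5+Z1)
      linarith)
    rw [abs_le] at b5 b8
    have hY2 : (56/100 : ℝ) ≤ Y2 := by norm_num [Y2]
    rw [hny]
    norm_num at *
    linarith [b5.1, b8.1]
  · rw [hHH, mul_comm]
    refine mul_lt_mul_of_pos_right (hk.trans ?_) (by positivity)
    norm_num

end Pool.Agent.H95.Fat
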