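import Pool.Agent.H95.Fat.Topo

/-! The initial configuration. -/

set_option autoImplicit false
set_option linter.unusedVariables false
set_option linter.unusedSimpArgs false

namespace Pool.Agent.H95.Fat

open Set Filter Topology

noncomputable section

def EX1 : ℝ := (-191397118108751175121377925139500000000000000000000000000000/624223494036965222291813781592827157920662925728863709227933)
def EY1 : ℝ := (-461496359896963178787340181902500000000000000000000000000000/624223494036965222291813781592827157920662925728863709227933)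
def EZ1 : ℝ := (-374223494036965222291813781592827157920662925728863709227933/624223494036965222291813781592827157920662925728863709227933)
def EX2 : ℝ := (-12176036045322210247101813214400000000000000000000000000/31845479767894803920318655463836097302776376907114109273)
def EY2 : ℝ := (520170500349830301251072155396800000000000000000000000000/923518913268949313689241008451246821780514930306309168917)
def EZ2 : ℝ := (676481086731050686310758991548753178219485069693690831083/923518913268949313689241008451246821780514930306309168917)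

/-- initial directions of the five links -/
def U0 : Fin 5 → EuclideanSpace ℝ (Fin 3) :=
  ![!₂[EX1, EY1, EZ1], !₂[EX2, EY2, EZ2], !₂[1, 0, 0], !₂[EX2, EY2, -EZ2], !₂[EX1, EY1, -EZ1]]

theorem U0_unit (i : Fin 5) : dt (U0 i) (U0 i) = 1 := by
  fin_cases i <;> simp [U0, dt] <;> norm_num [EX1, EY1, EZ1, EX2, EY2, EZ2]

theorem ev_U0 : ev U0 = !₂[0, 2 * EY2, 0] := by
  ext k
  fin_cases k <;> simp [ev, U0, dt] <;> ring

theorem nn_U0 : nn U0 = 2 * EY2 := by
  have h : dt (ev U0) (ev U0) = (2 * EY2)^2 := by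
    rw [ev_U0]; simp [dt]; ring
  rw [nn, h]
  exact Real.sqrt_sq (by norm_num [EY2])

theorem good_U0 : 1 ≤ nn U0 ∧ HH U0 ≤ (2/10^20) * (nn U0)^2 := by
  constructor
  · rw [nn_U0]; norm_num [EY2]
  · rw [HH, nn_U0, ev_U0]
    simp [dt, dd, U0]
    norm_num [EX1, EY1, EZ1, EX2, EY2, EZ2, X1, Y1, Z1, X2, Y2, Z2]

theorem dd_sq_le (a b x : EuclideanSpace ℝ (Fin 3)) :
    (dd a b x)^2 ≤ (dt a a * dt b b - (dt a b)^2) * dt x x := by
  have h : (dt a a * dt b b - (dt a b)^2) * dt x x - (dd a b x)^2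
      = ((a 2 * b 0 - a 0 * b 2) * x 2 - (a 0 * b 1 - a 1 * b 0) * x 1)^2
      + ((a 0 * b 1 - a 1 * b 0) * x 0 - (a 1 * b 2 - a 2 * b 1) * x 2)^2
      + ((a 1 * b 2 - a 2 * b 1) * x 1 - (a 2 * b 0 - a 0 * b 2) * x 0)^2 := by
    simp only [dt, dd]; ring
  nlinarith [sq_nonneg ((a 2 * b 0 - a 0 * b 2) * x 2 - (a 0 * b 1 - a 1 * b 0) * x 1),
    sq_nonneg ((a 0 * b 1 - a 1 * b 0) * x 0 - (a 1 * b 2 - a 2 * b 1) * x 2),
    sq_nonneg ((a 1 * b 2 - a 2 * b 1) * x 1 - (a 2 * b 0 - a 0 * b 2) * x 0)]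

theorem seg_left {P0 P1 p u : EuclideanSpace ℝ (Fin 3)} {l : ℝ} (h : P1 - P0 = l • u)
    (hl : 0 < l) (hp : p ∈ segment ℝ P0 P1) : ∃ s, 0 ≤ s ∧ s ≤ l ∧ p = P1 - s • u := by
  obtain ⟨a, b, ha, hb, hab, rfl⟩ := hp
  refine ⟨a * l, by positivity, ?_, ?_⟩
  · have : a ≤ 1 := by linarith
    nlinarith
  · rw [← smul_smul, ← h]
    have hb' : b = 1 - a := by linarith
    rw [hb']; module

theorem seg_right {Q0 Q1 q u : EuclideanSpace ℝ (Fin 3)} {l : ℝ} (h : Q1 - Q0 = l • u)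
    (hl : 0 < l) (hq : q ∈ segment ℝ Q0 Q1) : ∃ t, 0 ≤ t ∧ t ≤ l ∧ q = Q0 + t • u := by
  obtain ⟨a, b, ha, hb, hab, rfl⟩ := hq
  refine ⟨b * l, by positivity, ?_, ?_⟩
  · have : b ≤ 1 := by linarith
    nlinarith
  · rw [← smul_smul, ← h]
    have ha' : a = 1 - b := by linarith
    rw [ha']; module

/-- two links on lines at distance more than two -/
theorem line_pair (P0 P1 Q0 Q1 ui uj B : EuclideanSpace ℝ (Fin 3)) (li lj : ℝ)
    (hli : 0 < li) (hlj : 0 < lj) (hP : P1 - P0 = li • ui) (hQ : Q1 - Q0 = lj • uj)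
    (hB : Q0 - P1 = LL • B)
    (hnum : 4 * (dt ui ui * dt uj uj - (dt ui uj)^2) < (LL * dd ui uj B)^2) :
    ∀ p ∈ segment ℝ P0 P1, ∀ q ∈ segment ℝ Q0 Q1, 2 < dist p q := by
  intro p hp q hq
  obtain ⟨s, -, -, rfl⟩ := seg_left hP hli hp
  obtain ⟨t, -, -, rfl⟩ := seg_right hQ hlj hq
  have hW : Q0 + t • uj - (P1 - s • ui) = LL • B + s • ui + t • uj := by
    rw [← hB]; module
  have hdd : dd ui uj (LL • B + s • ui + t • uj) = LL * dd ui uj B := by
    rw [dd_add, dd_add, dd_smul, dd_smul, dd_smul, dd_self1, dd_self2]; ring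
  have h1 := dd_sq_le ui uj (LL • B + s • ui + t • uj)
  rw [hdd, ← hW, dt_self_eq (Q0 + t • uj - (P1 - s • ui))] at h1
  rw [dist_comm, dist_eq_norm]
  by_contra hcon
  push Not at hcon
  have hsq : ‖Q0 + t • uj - (P1 - s • ui)‖^2 ≤ 4 := by
    nlinarith [norm_nonneg (Q0 + t • uj - (P1 - s • ui))]
  have hgram : 0 ≤ dt ui ui * dt uj uj - (dt ui uj)^2 := by
    have h : dt ui ui * dt uj uj - (dt ui uj)^2
      = (ui 2 * uj 0 - ui 0 * uj 2)^2 + (ui 0 * uj 1 - ui 1 * uj 0)^2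
        + (ui 1 * uj 2 - ui 2 * uj 1)^2 := by
      simp only [dt]; ring
    rw [h]; positivity
  have h2 := mul_le_mul_of_nonneg_left hsq hgram
  linarith

theorem num13 : 4 * (dt (U0 0) (U0 0) * dt (U0 2) (U0 2) - (dt (U0 0) (U0 2))^2)
    < (LL * dd (U0 0) (U0 2) (U0 1))^2 := by
  simp [dt, dd, U0]
  norm_num [EX1, EY1, EZ1, EX2, EY2, EZ2, LL]

theorem num35 : 4 * (dt (U0 2) (U0 2) * dt (U0 4) (U0 4) - (dt (U0 2) (U0 4))^2)
    < (LL * dd (U0 2) (U0 4) (U0 3))^2 := by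
  simp [dt, dd, U0]
  norm_num [EX1, EY1, EZ1, EX2, EY2, EZ2, LL]

theorem num14 : 4 * (dt (U0 0) (U0 0) * dt (U0 3) (U0 3) - (dt (U0 0) (U0 3))^2)
    < (LL * dd (U0 0) (U0 3) (U0 1 + U0 2))^2 := by
  simp [dt, dd, U0]
  norm_num [EX1, EY1, EZ1, EX2, EY2, EZ2, LL]

theorem num25 : 4 * (dt (U0 1) (U0 1) * dt (U0 4) (U0 4) - (dt (U0 1) (U0 4))^2)
    < (LL * dd (U0 1) (U0 4) (U0 2 + U0 3))^2 := by
  simp [dt, dd, U0]
  norm_num [EX1, EY1, EZ1, EX2, EY2, EZ2, LL]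

theorem num15 : 4 * (dt (U0 0) (U0 0) * dt (U0 4) (U0 4) - (dt (U0 0) (U0 4))^2)
    < (LL * dd (U0 0) (U0 4) (U0 1 + U0 2 + U0 3))^2 := by
  simp [dt, dd, U0]
  norm_num [EX1, EY1, EZ1, EX2, EY2, EZ2, LL]

end

end Pool.Agent.H95.Fat
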