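import Pool.Agent.H95.Fat.Num

set_option autoImplicit false

namespace Pool.Agent.H95.Fat

theorem contact_core (w1 w2 w3 A1 A2 A3 B1 B2 B3 th om g : ℝ)
    (hE : th < (w1 + A1 + B1)^2 + (w2 + A2 + B2)^2 + (w3 + A3 + B3)^2)
    (hn : w1^2+w2^2+w3^2 - th ≤ 1/10^26) (hn' : -(1/10^26) ≤ w1^2+w2^2+w3^2 - th)
    (hw1 : |w1| ≤ 1/4) (hw2 : |w2| ≤ 1/4) (hw3 : |w3| ≤ 1/4)
    (hA1 : |A1| ≤ 3/10^9) (hA2 : |A2| ≤ 3/10^9) (hA3 : |A3| ≤ 3/10^9)
    (hB1 : |B1| ≤ 5/10^19) (hB2 : |B2| ≤ 5/10^19) (hB3 : |B3| ≤ 5/10^19)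
    (hg : |g| ≤ 2/10^9) (hom : 1/10 ≤ om) (hom' : om ≤ 1/3) :
    0 < om * (2*(w1*A1+w2*A2+w3*A3) + (A1^2+A2^2+A3^2) + 2*(w1*B1+w2*B2+w3*B3))
      - g*(2*(w1*A1+w2*A2+w3*A3)) + 1/10^25 := by
  have hwB : ∀ w B : ℝ, |w| ≤ 1/4 → |B| ≤ 5/10^19 → |w*B| ≤ (1/4)*(5/10^19) := by
    intro w B h1 h2
    rw [abs_mul]
    exact mul_le_mul h1 h2 (abs_nonneg _) (by norm_num)
  have hAB : ∀ w B : ℝ, |w| ≤ 3/10^9 → |B| ≤ 5/10^19 → |w*B| ≤ (3/10^9)*(5/10^19) := by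
    intro w B h1 h2
    rw [abs_mul]
    exact mul_le_mul h1 h2 (abs_nonneg _) (by norm_num)
  have hAA : ∀ w : ℝ, |w| ≤ 3/10^9 → w^2 ≤ (3/10^9)*(3/10^9) := by
    intro w h1
    have := mul_le_mul h1 h1 (abs_nonneg _) (by norm_num)
    rwa [abs_mul_abs_self, ← sq] at this
  have hBB : ∀ w : ℝ, |w| ≤ 5/10^19 → w^2 ≤ (5/10^19)*(5/10^19) := by
    intro w h1
    have := mul_le_mul h1 h1 (abs_nonneg _) (by norm_num)
    rwa [abs_mul_abs_self, ← sq] at this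
  have a1 := hAA _ hA1
  have a2 := hAA _ hA2
  have a3 := hAA _ hA3
  have b1 := hBB _ hB1
  have b2 := hBB _ hB2
  have b3 := hBB _ hB3
  have c1 := abs_le.mp (hwB _ _ hw1 hB1)
  have c2 := abs_le.mp (hwB _ _ hw2 hB2)
  have c3 := abs_le.mp (hwB _ _ hw3 hB3)
  have d1 := abs_le.mp (hAB _ _ hA1 hB1)
  have d2 := abs_le.mp (hAB _ _ hA2 hB2)
  have d3 := abs_le.mp (hAB _ _ hA3 hB3)
  have gg := abs_le.mp hg
  have sA1 := sq_nonneg A1
  have sA2 := sq_nonneg A2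
  have sA3 := sq_nonneg A3
  have sB1 := sq_nonneg B1
  have sB2 := sq_nonneg B2
  have sB3 := sq_nonneg B3
  set nu : ℝ := w1^2+w2^2+w3^2 - th with hnu
  set G : ℝ := 2*(w1*A1+w2*A2+w3*A3) with hG
  set q : ℝ := (A1^2+A2^2+A3^2) + 2*(w1*B1+w2*B2+w3*B3) with hq
  set R : ℝ := 2*(A1*B1+A2*B2+A3*B3) + (B1^2+B2^2+B3^2) with hR
  have hEE : 0 < nu + G + q + R := by
    have : nu + G + q + R = (w1 + A1 + B1)^2 + (w2 + A2 + B2)^2 + (w3 + A3 + B3)^2 - th := by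
      rw [hnu, hG, hq, hR]; ring
    rw [this]; linarith
  have hq' : |nu + q + R| ≤ 29/10^18 := by
    rw [abs_le]
    constructor
    · rw [hq, hR]; norm_num at *; linarith [c1.1, c2.1, c3.1, d1.1, d2.1, d3.1]
    · rw [hq, hR]; norm_num at *; linarith [c1.2, c2.2, c3.2, d1.2, d2.2, d3.2]
  have hR' : R ≤ 92/10^28 := by
    rw [hR]; norm_num at *; linarith [d1.2, d2.2, d3.2]
  have hgq : |g * (nu + q + R)| ≤ (2/10^9) * (29/10^18) := by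
    rw [abs_mul]
    exact mul_le_mul hg hq' (abs_nonneg _) (by norm_num)
  have hgq2 := abs_le.mp hgq
  have hpos : 0 < (om - g) * (nu + G + q + R) :=
    mul_pos (by norm_num at *; linarith [gg.1, gg.2]) hEE
  have honu : om * nu ≤ (1/3) * (1/10^26) := by
    have : om * nu ≤ om * (1/10^26) := mul_le_mul_of_nonneg_left hn (by linarith)
    have h2 : om * (1/10^26) ≤ (1/3) * (1/10^26) := mul_le_mul_of_nonneg_right hom' (by norm_num)
    linarith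
  have hoR : om * R ≤ (1/3) * (92/10^28) := by
    have : om * R ≤ om * (92/10^28) := mul_le_mul_of_nonneg_left hR' (by linarith)
    have h2 : om * (92/10^28) ≤ (1/3) * (92/10^28) := mul_le_mul_of_nonneg_right hom' (by norm_num)
    linarith
  have hfin : om * (G + (A1^2+A2^2+A3^2) + 2*(w1*B1+w2*B2+w3*B3)) - g*G
      = (om - g) * (nu + G + q + R) - om * nu - om * R + g * (nu + q + R) := by
    rw [hq]; ring
  rw [hfin]
  norm_num at *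
  linarith [hgq2.1]

end Pool.Agent.H95.Fat
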