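import Pool.Agent.H95.Fat.Bounds

set_option autoImplicit false
set_option linter.unusedVariables false
set_option linter.unusedSimpArgs false

namespace Pool.Agent.H95.Fat

theorem nu13_le : w13x^2 + w13y^2 + w13z^2 - thr ≤ 1/10^26 := by
  norm_num [w13x, w13y, w13z, X1, Y1, Z1, X2, Y2, Z2, s13, t13, s14, t14, s15, om13, om14, om15, thr, LL]

theorem nu13_ge : -(1/10^26) ≤ w13x^2 + w13y^2 + w13z^2 - thr := by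
  norm_num [w13x, w13y, w13z, X1, Y1, Z1, X2, Y2, Z2, s13, t13, s14, t14, s15, om13, om14, om15, thr, LL]

theorem w13x_bound : |w13x| ≤ 1/4 := by
  rw [abs_le]
  constructor <;> norm_num [w13x, X1, Y1, Z1, X2, Y2, Z2, s13, t13, s14, t14, s15, om13, om14, om15, thr, LL]

theorem w13y_bound : |w13y| ≤ 1/4 := by
  rw [abs_le]
  constructor <;> norm_num [w13y, X1, Y1, Z1, X2, Y2, Z2, s13, t13, s14, t14, s15, om13, om14, om15, thr, LL]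

theorem w13z_bound : |w13z| ≤ 1/4 := by
  rw [abs_le]
  constructor <;> norm_num [w13z, X1, Y1, Z1, X2, Y2, Z2, s13, t13, s14, t14, s15, om13, om14, om15, thr, LL]

theorem om13_ge : 1/10 ≤ om13 := by norm_num [om13]

theorem om13_le : om13 ≤ 1/3 := by norm_num [om13]

theorem nu14_le : w14x^2 + w14y^2 + w14z^2 - thr ≤ 1/10^26 := by
  norm_num [w14x, w14y, w14z, X1, Y1, Z1, X2, Y2, Z2, s13, t13, s14, t14, s15, om13, om14, om15, thr, LL]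

theorem nu14_ge : -(1/10^26) ≤ w14x^2 + w14y^2 + w14z^2 - thr := by
  norm_num [w14x, w14y, w14z, X1, Y1, Z1, X2, Y2, Z2, s13, t13, s14, t14, s15, om13, om14, om15, thr, LL]

theorem w14x_bound : |w14x| ≤ 1/4 := by
  rw [abs_le]
  constructor <;> norm_num [w14x, X1, Y1, Z1, X2, Y2, Z2, s13, t13, s14, t14, s15, om13, om14, om15, thr, LL]

theorem w14y_bound : |w14y| ≤ 1/4 := by
  rw [abs_le]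
  constructor <;> norm_num [w14y, X1, Y1, Z1, X2, Y2, Z2, s13, t13, s14, t14, s15, om13, om14, om15, thr, LL]

theorem w14z_bound : |w14z| ≤ 1/4 := by
  rw [abs_le]
  constructor <;> norm_num [w14z, X1, Y1, Z1, X2, Y2, Z2, s13, t13, s14, t14, s15, om13, om14, om15, thr, LL]

theorem om14_ge : 1/10 ≤ om14 := by norm_num [om14]

theorem om14_le : om14 ≤ 1/3 := by norm_num [om14]

theorem nu15_le : w15x^2 + w15y^2 + w15z^2 - thr ≤ 1/10^26 := by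
  norm_num [w15x, w15y, w15z, X1, Y1, Z1, X2, Y2, Z2, s13, t13, s14, t14, s15, om13, om14, om15, thr, LL]

theorem nu15_ge : -(1/10^26) ≤ w15x^2 + w15y^2 + w15z^2 - thr := by
  norm_num [w15x, w15y, w15z, X1, Y1, Z1, X2, Y2, Z2, s13, t13, s14, t14, s15, om13, om14, om15, thr, LL]

theorem w15x_bound : |w15x| ≤ 1/4 := by
  rw [abs_le]
  constructor <;> norm_num [w15x, X1, Y1, Z1, X2, Y2, Z2, s13, t13, s14, t14, s15, om13, om14, om15, thr, LL]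

theorem w15y_bound : |w15y| ≤ 1/4 := by
  rw [abs_le]
  constructor <;> norm_num [w15y, X1, Y1, Z1, X2, Y2, Z2, s13, t13, s14, t14, s15, om13, om14, om15, thr, LL]

theorem w15z_bound : |w15z| ≤ 1/4 := by
  rw [abs_le]
  constructor <;> norm_num [w15z, X1, Y1, Z1, X2, Y2, Z2, s13, t13, s14, t14, s15, om13, om14, om15, thr, LL]

theorem om15_ge : 1/10 ≤ om15 := by norm_num [om15]

theorem om15_le : om15 ≤ 1/3 := by norm_num [om15]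

theorem mul_bound1 {s p : ℝ} (hs : |s| ≤ 12/10^10) (hp : |p| ≤ 2/10^10) : |s * p| ≤ 5/10^19 := by
  rw [abs_mul]
  have := mul_le_mul hs hp (abs_nonneg _) (by norm_num)
  exact this.trans (by norm_num)

theorem mul_bound2 {s p t q : ℝ} (hs : |s| ≤ 12/10^10) (hp : |p| ≤ 2/10^10)
    (ht : |t| ≤ 12/10^10) (hq : |q| ≤ 2/10^10) : |s * p + t * q| ≤ 5/10^19 := by
  have h1 := mul_le_mul hs hp (abs_nonneg _) (by norm_num)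
  have h2 := mul_le_mul ht hq (abs_nonneg _) (by norm_num)
  have h3 := abs_add_le (s * p) (t * q)
  rw [abs_mul, abs_mul] at h3
  have h4 : (12/10^10 : ℝ) * (2/10^10) + 12/10^10 * (2/10^10) ≤ 5/10^19 := by norm_num
  linarith

theorem T13_pos (p1 p2 p3 q1 q2 q3 : ℝ) (hp1 : |p1| ≤ 2/10^10) (hp2 : |p2| ≤ 2/10^10) (hp3 : |p3| ≤ 2/10^10) (hq1 : |q1| ≤ 2/10^10) (hq2 : |q2| ≤ 2/10^10) (hq3 : |q3| ≤ 2/10^10)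
    (hE : thr < ((s13 + sg13 p1 p2 p3 q1 q2 q3) * (X1 + p1) + (X2 + q1) + (t13 + ta13 p1 p2 p3 q1 q2 q3))^2
      + ((s13 + sg13 p1 p2 p3 q1 q2 q3) * (Y1 + p2) + (Y2 + q2))^2
      + ((s13 + sg13 p1 p2 p3 q1 q2 q3) * (Z1 + p3) + (Z2 + q3))^2) : -(1/10^25) < T13 p1 p2 p3 q1 q2 q3 := by
  have h := contact_core w13x w13y w13z (A13x p1 p2 p3 q1 q2 q3) (A13y p1 p2 p3 q1 q2 q3) (A13z p1 p2 p3 q1 q2 q3)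
    (sg13 p1 p2 p3 q1 q2 q3 * p1) (sg13 p1 p2 p3 q1 q2 q3 * p2) (sg13 p1 p2 p3 q1 q2 q3 * p3) thr om13 (g13 p1 p2 p3 q1 q2 q3)
    (by
      refine lt_of_lt_of_eq hE ?_
      simp only [w13x, w13y, w13z, A13x, A13y, A13z]
      ring)
    nu13_le nu13_ge w13x_bound w13y_bound w13z_bound
    (A13x_bound p1 p2 p3 q1 q2 q3 hp1 hp2 hp3 hq1 hq2 hq3) (A13y_bound p1 p2 p3 q1 q2 q3 hp1 hp2 hp3 hq1 hq2 hq3) (A13z_bound p1 p2 p3 q1 q2 q3 hp1 hp2 hp3 hq1 hq2 hq3)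
    (mul_bound1 (sg13_bound p1 p2 p3 q1 q2 q3 hp1 hp2 hp3 hq1 hq2 hq3) hp1)
    (mul_bound1 (sg13_bound p1 p2 p3 q1 q2 q3 hp1 hp2 hp3 hq1 hq2 hq3) hp2)
    (mul_bound1 (sg13_bound p1 p2 p3 q1 q2 q3 hp1 hp2 hp3 hq1 hq2 hq3) hp3)
    (g13_bound p1 p2 p3 q1 q2 q3 hp1 hp2 hp3 hq1 hq2 hq3) om13_ge om13_le
  unfold T13
  linarith

theorem T14_pos (p1 p2 p3 q1 q2 q3 r1 r2 r3 : ℝ) (hp1 : |p1| ≤ 2/10^10) (hp2 : |p2| ≤ 2/10^10) (hp3 : |p3| ≤ 2/10^10) (hq1 : |q1| ≤ 2/10^10) (hq2 : |q2| ≤ 2/10^10) (hq3 : |q3| ≤ 2/10^10) (hr1 : |r1| ≤ 2/10^10) (hr2 : |r2| ≤ 2/10^10) (hr3 : |r3| ≤ 2/10^10)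
    (hE : thr < ((s14 + sg14 p1 p2 p3 q1 q2 q3 r1 r2 r3) * (X1 + p1) + (X2 + q1) + 1 + (t14 + ta14 p1 p2 p3 q1 q2 q3 r1 r2 r3) * (X2 + r1))^2
      + ((s14 + sg14 p1 p2 p3 q1 q2 q3 r1 r2 r3) * (Y1 + p2) + (Y2 + q2) + (t14 + ta14 p1 p2 p3 q1 q2 q3 r1 r2 r3) * (Y2 + r2))^2
      + ((s14 + sg14 p1 p2 p3 q1 q2 q3 r1 r2 r3) * (Z1 + p3) + (Z2 + q3) + (t14 + ta14 p1 p2 p3 q1 q2 q3 r1 r2 r3) * (-Z2 + r3))^2) : -(1/10^25) < T14 p1 p2 p3 q1 q2 q3 r1 r2 r3 := by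
  have h := contact_core w14x w14y w14z (A14x p1 p2 p3 q1 q2 q3 r1 r2 r3) (A14y p1 p2 p3 q1 q2 q3 r1 r2 r3) (A14z p1 p2 p3 q1 q2 q3 r1 r2 r3)
    (sg14 p1 p2 p3 q1 q2 q3 r1 r2 r3 * p1 + ta14 p1 p2 p3 q1 q2 q3 r1 r2 r3 * r1) (sg14 p1 p2 p3 q1 q2 q3 r1 r2 r3 * p2 + ta14 p1 p2 p3 q1 q2 q3 r1 r2 r3 * r2) (sg14 p1 p2 p3 q1 q2 q3 r1 r2 r3 * p3 + ta14 p1 p2 p3 q1 q2 q3 r1 r2 r3 * r3) thr om14 (g14 p1 p2 p3 q1 q2 q3 r1 r2 r3)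
    (by
      refine lt_of_lt_of_eq hE ?_
      simp only [w14x, w14y, w14z, A14x, A14y, A14z]
      ring)
    nu14_le nu14_ge w14x_bound w14y_bound w14z_bound
    (A14x_bound p1 p2 p3 q1 q2 q3 r1 r2 r3 hp1 hp2 hp3 hq1 hq2 hq3 hr1 hr2 hr3) (A14y_bound p1 p2 p3 q1 q2 q3 r1 r2 r3 hp1 hp2 hp3 hq1 hq2 hq3 hr1 hr2 hr3) (A14z_bound p1 p2 p3 q1 q2 q3 r1 r2 r3 hp1 hp2 hp3 hq1 hq2 hq3 hr1 hr2 hr3)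
    (mul_bound2 (sg14_bound p1 p2 p3 q1 q2 q3 r1 r2 r3 hp1 hp2 hp3 hq1 hq2 hq3 hr1 hr2 hr3) hp1 (ta14_bound p1 p2 p3 q1 q2 q3 r1 r2 r3 hp1 hp2 hp3 hq1 hq2 hq3 hr1 hr2 hr3) hr1)
    (mul_bound2 (sg14_bound p1 p2 p3 q1 q2 q3 r1 r2 r3 hp1 hp2 hp3 hq1 hq2 hq3 hr1 hr2 hr3) hp2 (ta14_bound p1 p2 p3 q1 q2 q3 r1 r2 r3 hp1 hp2 hp3 hq1 hq2 hq3 hr1 hr2 hr3) hr2)
    (mul_bound2 (sg14_bound p1 p2 p3 q1 q2 q3 r1 r2 r3 hp1 hp2 hp3 hq1 hq2 hq3 hr1 hr2 hr3) hp3 (ta14_bound p1 p2 p3 q1 q2 q3 r1 r2 r3 hp1 hp2 hp3 hq1 hq2 hq3 hr1 hr2 hr3) hr3)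
    (g14_bound p1 p2 p3 q1 q2 q3 r1 r2 r3 hp1 hp2 hp3 hq1 hq2 hq3 hr1 hr2 hr3) om14_ge om14_le
  unfold T14
  linarith

theorem T15_pos (p1 p2 p3 q1 q2 q3 r1 r2 r3 z1 z2 z3 : ℝ) (hp1 : |p1| ≤ 2/10^10) (hp2 : |p2| ≤ 2/10^10) (hp3 : |p3| ≤ 2/10^10) (hq1 : |q1| ≤ 2/10^10) (hq2 : |q2| ≤ 2/10^10) (hq3 : |q3| ≤ 2/10^10) (hr1 : |r1| ≤ 2/10^10) (hr2 : |r2| ≤ 2/10^10) (hr3 : |r3| ≤ 2/10^10) (hz1 : |z1| ≤ 2/10^10) (hz2 : |z2| ≤ 2/10^10) (hz3 : |z3| ≤ 2/10^10)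
    (hE : thr < ((s15 + sg15 p1 p2 p3 q1 q2 q3 r1 r2 r3 z1 z2 z3) * (X1 + p1) + (X2 + q1) + 1 + (X2 + r1) + (s15 + ta15 p1 p2 p3 q1 q2 q3 r1 r2 r3 z1 z2 z3) * (X1 + z1))^2
      + ((s15 + sg15 p1 p2 p3 q1 q2 q3 r1 r2 r3 z1 z2 z3) * (Y1 + p2) + (Y2 + q2) + (Y2 + r2) + (s15 + ta15 p1 p2 p3 q1 q2 q3 r1 r2 r3 z1 z2 z3) * (Y1 + z2))^2
      + ((s15 + sg15 p1 p2 p3 q1 q2 q3 r1 r2 r3 z1 z2 z3) * (Z1 + p3) + (Z2 + q3) + (-Z2 + r3) + (s15 + ta15 p1 p2 p3 q1 q2 q3 r1 r2 r3 z1 z2 z3) * (-Z1 + z3))^2) : -(1/10^25) < T15 p1 p2 p3 q1 q2 q3 r1 r2 r3 z1 z2 z3 := by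
  have h := contact_core w15x w15y w15z (A15x p1 p2 p3 q1 q2 q3 r1 r2 r3 z1 z2 z3) (A15y p1 p2 p3 q1 q2 q3 r1 r2 r3 z1 z2 z3) (A15z p1 p2 p3 q1 q2 q3 r1 r2 r3 z1 z2 z3)
    (sg15 p1 p2 p3 q1 q2 q3 r1 r2 r3 z1 z2 z3 * p1 + ta15 p1 p2 p3 q1 q2 q3 r1 r2 r3 z1 z2 z3 * z1) (sg15 p1 p2 p3 q1 q2 q3 r1 r2 r3 z1 z2 z3 * p2 + ta15 p1 p2 p3 q1 q2 q3 r1 r2 r3 z1 z2 z3 * z2) (sg15 p1 p2 p3 q1 q2 q3 r1 r2 r3 z1 z2 z3 * p3 + ta15 p1 p2 p3 q1 q2 q3 r1 r2 r3 z1 z2 z3 * z3) thr om15 (g15 p1 p2 p3 q1 q2 q3 r1 r2 r3 z1 z2 z3)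
    (by
      refine lt_of_lt_of_eq hE ?_
      simp only [w15x, w15y, w15z, A15x, A15y, A15z]
      ring)
    nu15_le nu15_ge w15x_bound w15y_bound w15z_bound
    (A15x_bound p1 p2 p3 q1 q2 q3 r1 r2 r3 z1 z2 z3 hp1 hp2 hp3 hq1 hq2 hq3 hr1 hr2 hr3 hz1 hz2 hz3) (A15y_bound p1 p2 p3 q1 q2 q3 r1 r2 r3 z1 z2 z3 hp1 hp2 hp3 hq1 hq2 hq3 hr1 hr2 hr3 hz1 hz2 hz3) (A15z_bound p1 p2 p3 q1 q2 q3 r1 r2 r3 z1 z2 z3 hp1 hp2 hp3 hq1 hq2 hq3 hr1 hr2 hr3 hz1 hz2 hz3)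
    (mul_bound2 (sg15_bound p1 p2 p3 q1 q2 q3 r1 r2 r3 z1 z2 z3 hp1 hp2 hp3 hq1 hq2 hq3 hr1 hr2 hr3 hz1 hz2 hz3) hp1 (ta15_bound p1 p2 p3 q1 q2 q3 r1 r2 r3 z1 z2 z3 hp1 hp2 hp3 hq1 hq2 hq3 hr1 hr2 hr3 hz1 hz2 hz3) hz1)
    (mul_bound2 (sg15_bound p1 p2 p3 q1 q2 q3 r1 r2 r3 z1 z2 z3 hp1 hp2 hp3 hq1 hq2 hq3 hr1 hr2 hr3 hz1 hz2 hz3) hp2 (ta15_bound p1 p2 p3 q1 q2 q3 r1 r2 r3 z1 z2 z3 hp1 hp2 hp3 hq1 hq2 hq3 hr1 hr2 hr3 hz1 hz2 hz3) hz2)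
    (mul_bound2 (sg15_bound p1 p2 p3 q1 q2 q3 r1 r2 r3 z1 z2 z3 hp1 hp2 hp3 hq1 hq2 hq3 hr1 hr2 hr3 hz1 hz2 hz3) hp3 (ta15_bound p1 p2 p3 q1 q2 q3 r1 r2 r3 z1 z2 z3 hp1 hp2 hp3 hq1 hq2 hq3 hr1 hr2 hr3 hz1 hz2 hz3) hz3)
    (g15_bound p1 p2 p3 q1 q2 q3 r1 r2 r3 z1 z2 z3 hp1 hp2 hp3 hq1 hq2 hq3 hr1 hr2 hr3 hz1 hz2 hz3) om15_ge om15_le
  unfold T15
  linarith

end Pool.Agent.H95.Fat
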