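import Pool.Agent.H95.Fat.Pos

set_option autoImplicit false
set_option linter.unusedVariables false
set_option linter.unusedSimpArgs false

namespace Pool.Agent.H95.Fat

theorem lin_small (a b c d e g : ℝ) (ha : |a| ≤ 2/10^10) (hb : |b| ≤ 2/10^10) (hc : |c| ≤ 2/10^10) (hd : |d| ≤ 2/10^10) (he : |e| ≤ 2/10^10) (hg : |g| ≤ 2/10^10) :
    ((-62550110519223557080734268745147298938168711344541690778716930329882486521/312500000000000000000000000000000000000000000000000000000000000000000000000000000000000000000)*a + (57767866060893169120427669507286068186284075754663729106507163846235071223/312500000000000000000000000000000000000000000000000000000000000000000000000000000000000000000)*b + (-19131754133731535587962623205989021769341834979864112524289312695121343311/156250000000000000000000000000000000000000000000000000000000000000000000000000000000000000000)*c + (-3735314393065824726079501818290454267869107178843898291060482299803721941/19531250000000000000000000000000000000000000000000000000000000000000000000000000000000000000)*d + (25515451036010797244369040426093103818813610872211358399300912170669902249/312500000000000000000000000000000000000000000000000000000000000000000000000000000000000000000)*e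 + (-98397137157816078161307407001110101193978544715899418257051607906593178963/312500000000000000000000000000000000000000000000000000000000000000000000000000000000000000000)*g) ≤ 1/10^26 := by
  rw [abs_le] at *
  norm_num at *
  linarith [ha.1, ha.2, hb.1, hb.2, hc.1, hc.2, hd.1, hd.2, he.1, he.2, hg.1, hg.2]

theorem quad_le (a b c d e g k l m n o : ℝ) (ha : |a| ≤ 2/10^10) (hb : |b| ≤ 2/10^10) (hc : |c| ≤ 2/10^10) (hd : |d| ≤ 2/10^10) (he : |e| ≤ 2/10^10) (hg : |g| ≤ 2/10^10) :
    T13 (a+k) (b+l) (c+m) (d+n) (e+o) g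
      + T13 (a-k) (b-l) (c-m) (d-n) (e-o) g
      + T14 (a+k) (b+l) (c+m) (d+n) (e+o) g (d-n) (e-o) (-g)
      + T14 (a-k) (b-l) (c-m) (d-n) (e-o) g (d+n) (e+o) (-g)
      + T15 (a+k) (b+l) (c+m) (d+n) (e+o) g (d-n) (e-o) (-g) (a-k) (b-l) (-(c-m))
      ≤ lam2 * (2 * (X2*(d+n)+Y2*(e+o)+Z2*g) + ((d+n)^2 + (e+o)^2 + g^2))
      + lam2 * (2 * (X2*(d-n)+Y2*(e-o)+Z2*g) + ((d-n)^2 + (e-o)^2 + g^2))
      + ((X1*(a+k)+Y1*(b+l)+Z1*(c+m))^2 + (X1*(a-k)+Y1*(b-l)+Z1*(c-m))^2
        + (X2*(d+n)+Y2*(e+o)+Z2*g)^2 + (X2*(d-n)+Y2*(e-o)+Z2*g)^2)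
      + 1/10^26
      - (2/100) * (a^2+b^2+c^2+d^2+e^2+g^2+k^2+l^2+m^2+n^2+o^2) := by
  have h := quad_identity a b c d e g k l m n o
  have h2 := lin_small a b c d e g ha hb hc hd he hg
  rw [h]
  refine (sub_le_self _ (by positivity)).trans ?_
  linarith

end Pool.Agent.H95.Fat
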