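import Pool.Agent.H95.Fat.Geo

/-! The open-closed argument along a motion. -/

set_option autoImplicit false
set_option linter.unusedVariables false
set_option linter.unusedSimpArgs false

namespace Pool.Agent.H95.Fat

open Set Filter Topology

theorem cont_dt {X : Type*} [TopologicalSpace X] {f g : X → EuclideanSpace ℝ (Fin 3)}
    (hf : Continuous f) (hg : Continuous g) : Continuous fun t => dt (f t) (g t) := by
  unfold dt; fun_prop

theorem cont_dd {X : Type*} [TopologicalSpace X] {f g h : X → EuclideanSpace ℝ (Fin 3)}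
    (hf : Continuous f) (hg : Continuous g) (hh : Continuous h) :
    Continuous fun t => dd (f t) (g t) (h t) := by
  unfold dd; fun_prop

theorem cont_ev {X : Type*} [TopologicalSpace X] {U : X → Fin 5 → EuclideanSpace ℝ (Fin 3)}
    (hU : Continuous U) : Continuous fun t => ev (U t) := by
  have h1 : Continuous fun t => U t 1 := (continuous_apply 1).comp hU
  have h2 : Continuous fun t => U t 2 := (continuous_apply 2).comp hU
  have h3 : Continuous fun t => U t 3 := (continuous_apply 3).comp hU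
  unfold ev
  exact (h1.add h3).sub ((cont_dt h2 (h1.add h3)).smul h2)

theorem cont_nn {X : Type*} [TopologicalSpace X] {U : X → Fin 5 → EuclideanSpace ℝ (Fin 3)}
    (hU : Continuous U) : Continuous fun t => nn (U t) := by
  unfold nn
  exact (cont_dt (cont_ev hU) (cont_ev hU)).sqrt

theorem cont_HH {X : Type*} [TopologicalSpace X] {U : X → Fin 5 → EuclideanSpace ℝ (Fin 3)}
    (hU : Continuous U) : Continuous fun t => HH (U t) := by
  have h (i : Fin 5) : Continuous fun t => U t i := (continuous_apply i).comp hU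
  have hn := cont_nn hU
  have he := cont_ev hU
  have a (i : Fin 5) := cont_dt (h 2) (h i)
  have b (i : Fin 5) := cont_dt he (h i)
  have c (i : Fin 5) := cont_dd (h 2) he (h i)
  have a0 := a 0
  have a1 := a 1
  have a3 := a 3
  have a4 := a 4
  have b0 := b 0
  have b1 := b 1
  have b3 := b 3
  have b4 := b 4
  have c0 := c 0
  have c1 := c 1
  have c3 := c 3
  have c4 := c 4
  unfold HH
  fun_prop

theorem stay (U : ℝ → Fin 5 → EuclideanSpace ℝ (Fin 3)) (hc : Continuous U)
    (h0 : 1 ≤ nn (U 0) ∧ HH (U 0) ≤ (2/10^20) * (nn (U 0))^2)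
    (hstep : ∀ t ∈ Icc (0:ℝ) 1, 1 ≤ nn (U t) → HH (U t) ≤ (2/10^20) * (nn (U t))^2 →
      1 < nn (U t) ∧ HH (U t) < (2/10^20) * (nn (U t))^2) : 1 ≤ nn (U 1) := by
  have hn := cont_nn hc
  have hH := cont_HH hc
  let s : Set ℝ := {t | 1 ≤ nn (U t) ∧ HH (U t) ≤ (2/10^20) * (nn (U t))^2}
  have hs : IsClosed s :=
    (isClosed_le continuous_const hn).inter (isClosed_le hH (continuous_const.mul (hn.pow 2)))
  have hsub : Icc (0:ℝ) 1 ⊆ s := by
    apply IsClosed.Icc_subset_of_forall_mem_nhdsWithin (hs.inter isClosed_Icc) h0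
    rintro x ⟨hx, hx2⟩
    obtain ⟨h1, h2⟩ := hstep x ⟨hx2.1, hx2.2.le⟩ hx.1 hx.2
    apply mem_nhdsWithin_of_mem_nhds
    have e1 : ∀ᶠ t in 𝓝 x, 1 < nn (U t) := hn.continuousAt.eventually (lt_mem_nhds h1)
    have e2 : ∀ᶠ t in 𝓝 x, HH (U t) < (2/10^20) * (nn (U t))^2 :=
      (isOpen_lt hH (continuous_const.mul (hn.pow 2))).mem_nhds h2
    filter_upwards [e1, e2] with t h3 h4
    exact ⟨h3.le, h4.le⟩
  exact (hsub (right_mem_Icc.2 zero_le_one)).1

theorem contact_of_simple (P0 P1 Q0 Q1 ui uj B : EuclideanSpace ℝ (Fin 3)) (li lj : ℝ)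
    (hli : 0 < li) (hlj : 0 < lj) (hP : P1 - P0 = li • ui) (hQ : Q1 - Q0 = lj • uj)
    (hB : Q0 - P1 = LL • B)
    (hs : ∀ p ∈ segment ℝ P0 P1, ∀ q ∈ segment ℝ Q0 Q1, 2 < dist p q)
    (s t : ℝ) (hs0 : 0 ≤ s) (hs1 : s * LL ≤ li) (ht0 : 0 ≤ t) (ht1 : t * LL ≤ lj) :
    thr < dt (s • ui + B + t • uj) (s • ui + B + t • uj) := by
  have hL : (0:ℝ) < LL := by norm_num [LL]
  have hp : P1 - (s * LL) • ui ∈ segment ℝ P0 P1 := by
    refine ⟨s * LL / li, 1 - s * LL / li, by positivity, ?_, by ring, ?_⟩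
    · rw [sub_nonneg, div_le_one hli]; exact hs1
    · have h1 : (s * LL) • ui = (s * LL / li) • (P1 - P0) := by
        rw [hP, smul_smul]; congr 1; field_simp
      rw [h1]; module
  have hq : Q0 + (t * LL) • uj ∈ segment ℝ Q0 Q1 := by
    refine ⟨1 - t * LL / lj, t * LL / lj, ?_, by positivity, by ring, ?_⟩
    · rw [sub_nonneg, div_le_one hlj]; exact ht1
    · have h1 : (t * LL) • uj = (t * LL / lj) • (Q1 - Q0) := by
        rw [hQ, smul_smul]; congr 1; field_simp
      rw [h1]; module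
  have hd := hs _ hp _ hq
  have hW : Q0 + (t * LL) • uj - (P1 - (s * LL) • ui) = LL • (s • ui + B + t • uj) := by
    have : Q0 + (t * LL) • uj - (P1 - (s * LL) • ui)
        = (Q0 - P1) + (s * LL) • ui + (t * LL) • uj := by module
    rw [this, hB]; module
  rw [dist_comm, dist_eq_norm, hW, norm_smul, Real.norm_eq_abs, abs_of_pos hL] at hd
  rw [dt_self_eq, thr, div_lt_iff₀ (by positivity)]
  nlinarith [norm_nonneg (s • ui + B + t • uj)]

end Pool.Agent.H95.Fat
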